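import Pool.Agent.HFP.St

/-!
# HFP: CVG, a convergent subsequence from an ultrafilter
-/

set_option autoImplicit false

open Filter Topology Set

namespace Pool.Agent.HFP

theorem thm_CVG : St_CVG := by
  intro X M K _ _ _ _ _ _ _ g f hg hf hinj q e x hq hfx
  have hqtop : (q : Filter ℕ) ≤ atTop := by
    rw [← Nat.cofinite_eq_atTop]; exact hq
  -- finitely many coordinates at once
  have hP : ∀ k : ℕ, ∀ᶠ n in (q : Filter ℕ), ∀ j ≤ k, f j (e n) = f j x := by
    intro k
    have := (Set.finite_Iic k).eventually_all (l := (q : Filter ℕ))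
      (p := fun j n => f j (e n) = f j x)
    exact this.2 fun j _ => hfx j
  obtain ⟨φ0, hφ0, h0⟩ := extraction_forall_of_frequently
    (P := fun k n => ∀ j ≤ k, f j (e n) = f j x)
    (fun k => ((hP k).frequently).filter_mono hqtop)
  obtain ⟨m, φ1, hφ1, h1⟩ := SeqCompactSpace.tendsto_subseq (fun k => g (e (φ0 k)))
  have hcoord : ∀ j, ∀ᶠ n in atTop, f j (e (φ0 (φ1 n))) = f j x := by
    intro j
    filter_upwards [eventually_ge_atTop j] with n hn
    exact h0 (φ1 n) j (hn.trans (hφ1.le_apply))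
  obtain ⟨x', hx'⟩ := exists_clusterPt_of_compactSpace (map (e ∘ (φ0 ∘ φ1)) (atTop : Filter ℕ))
  have hval : ∀ c, ClusterPt c (map (e ∘ (φ0 ∘ φ1)) (atTop : Filter ℕ)) →
      g c = m ∧ ∀ j, f j c = f j x := by
    intro c hc
    obtain ⟨U, hU, hUc⟩ := clusterPt_iff_ultrafilter.1 hc
    constructor
    · have t1 : Tendsto g (U : Filter X) (𝓝 (g c)) := (hg.tendsto c).mono_left hUc
      have t2 : Tendsto g (U : Filter X) (𝓝 m) := by
        refine Tendsto.mono_left ?_ hU
        rw [tendsto_map'_iff]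
        exact h1
      exact tendsto_nhds_unique t1 t2
    · intro j
      have t1 : Tendsto (f j) (U : Filter X) (𝓝 (f j c)) := ((hf j).tendsto c).mono_left hUc
      have t2 : Tendsto (f j) (U : Filter X) (𝓝 (f j x)) := by
        refine Tendsto.mono_left ?_ hU
        rw [tendsto_map'_iff]
        exact tendsto_const_nhds.congr' ((hcoord j).mono fun n hn => hn.symm)
      exact tendsto_nhds_unique t1 t2
  refine ⟨φ0 ∘ φ1, x', hφ0.comp hφ1, ?_⟩
  refine le_nhds_of_unique_clusterPt fun c hc => ?_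
  obtain ⟨a1, a2⟩ := hval c hc
  obtain ⟨b1, b2⟩ := hval x' hx'
  exact hinj c x' (a1.trans b1.symm) fun i => (a2 i).trans (b2 i).symm

end Pool.Agent.HFP
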