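import Pool.Agent.HFP.St

/-!
# HFP, DCW: deciding countably many sets
-/

set_option autoImplicit false

open Filter Topology Set

namespace Pool.Agent.HFP

theorem thm_DCW : St_TRN → St_IND → St_DEC → St_DCW := by
  intro hTRN hIND hDEC F J U hI hJ
  have hJ' : Cardinal.aleph0 < Cardinal.mk J := by
    rw [← not_le, Cardinal.le_aleph0_iff_set_countable]
    exact hJ
  obtain ⟨F', hF', R, hR, hP, hD⟩ := hTRN SS (Set ℕ) ℕ Ind (fun n F => U n ∈ F ∨ (U n)ᶜ ∈ F) F J
    hIND.1 hIND.2.1 (fun t F F' h hd => hd.imp (fun h1 => h h1) fun h1 => h h1)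
    (fun t F J hI _ => hDEC F J (U t) hI) hI hJ (by
      rw [Cardinal.mk_nat]
      exact hJ'.le)
  refine ⟨F', hF', R, ?_, hP, hD⟩
  rw [Cardinal.mk_nat, max_self] at hR
  exact Cardinal.le_aleph0_iff_set_countable.1 hR

end Pool.Agent.HFP
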