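import Pool.Agent.HFP.St

/-!
# HFP, DEC: deciding one set
-/

set_option autoImplicit false

open Filter Topology Set

namespace Pool.Agent.HFP

theorem thm_DEC : St_IND → St_DEC := by
  classical
  intro hIND F J B hI
  by_cases h : Ind (F ⊓ 𝓟 B) J
  · refine ⟨F ⊓ 𝓟 B, inf_le_left, ∅, countable_empty, ?_, Or.inl ?_⟩
    · rw [sdiff_empty]
      exact h
    · exact mem_inf_of_right (mem_principal_self B)
  · have h1 : ∃ D n, Adm J D n ∧ ∃ A ∈ F ⊓ 𝓟 B, ¬ (A ∩ Bx D n).Nonempty := by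
      by_contra h2
      push Not at h2
      exact h ⟨inf_le_left.trans hI.1, fun D n hD A hA => h2 D n hD A hA⟩
    obtain ⟨D, n, hD, A, hA, hAB⟩ := h1
    refine ⟨F ⊓ 𝓟 (Bx D n), inf_le_left, {X | ∃ z ∈ D, z.1 = X}, ?_, hIND.2.2.1 F J D n hI hD,
      Or.inr ?_⟩
    · refine ((D.finite_toSet.image Prod.fst).subset ?_).countable
      rintro X ⟨z, hz, rfl⟩
      exact ⟨z, hz, rfl⟩
    · rw [mem_inf_principal'] at hA ⊢
      filter_upwards [hA] with s hs
      by_cases hs1 : s ∈ Bx D n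
      · right
        intro hs2
        rcases hs with hs | hs
        · exact hs hs2
        · exact hAB ⟨s, hs, hs1⟩
      · exact Or.inl hs1

end Pool.Agent.HFP
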