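import Pool.Agent.HFP.St

set_option autoImplicit false

open Filter Topology Set

namespace Pool.Agent.HFP

open Classical in
/-- the code of `(n, {i < n | i ∈ ξ})` -/
private noncomputable def FAM_phi (ξ : Set ℕ) (n : ℕ) : ℕ :=
  Encodable.encode (n, (Finset.range n).filter (fun i => i ∈ ξ))

private theorem FAM_inj {ξ η : Set ℕ} {n m : ℕ} (h : FAM_phi ξ n = FAM_phi η m) :
    n = m ∧ ∀ i < n, (i ∈ ξ ↔ i ∈ η) := by
  classical
  unfold FAM_phi at h
  have h1 := Encodable.encode_injective h
  rw [Prod.mk.injEq] at h1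
  obtain ⟨rfl, h2⟩ := h1
  refine ⟨rfl, fun i hi => ?_⟩
  have h3 := Finset.ext_iff.1 h2 i
  simp only [Finset.mem_filter, Finset.mem_range, hi, true_and] at h3
  exact h3

private theorem FAM_phi_inj (ξ : Set ℕ) : Function.Injective (FAM_phi ξ) :=
  fun _ _ h => (FAM_inj h).1

private theorem FAM_fin {ξ η : Set ℕ} (h : ξ ≠ η) :
    (range (FAM_phi ξ) ∩ range (FAM_phi η)).Finite := by
  have h1 : ∃ i, ¬ (i ∈ ξ ↔ i ∈ η) := by
    by_contra hc
    push Not at hc
    exact h (Set.ext hc)
  obtain ⟨i, hi⟩ := h1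
  refine ((Set.finite_Iic i).image (FAM_phi ξ)).subset ?_
  rintro _ ⟨⟨n, rfl⟩, ⟨m, hm⟩⟩
  refine ⟨n, ?_, rfl⟩
  by_contra hc
  rw [Set.mem_Iic, not_le] at hc
  exact hi ((FAM_inj hm.symm).2 i hc)

private theorem FAM_map_le {φ : ℕ → ℕ} (hφ : Function.Injective φ) {p : Ultrafilter ℕ}
    (h : (p : Filter ℕ) ≤ cofinite) : ((p.map φ : Ultrafilter ℕ) : Filter ℕ) ≤ cofinite := by
  intro s hs
  have h1 : (φ ⁻¹' s)ᶜ.Finite := by
    rw [← Set.preimage_compl]
    exact (Filter.mem_cofinite.1 hs).preimage hφ.injOn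
  exact h (Filter.mem_cofinite.2 h1)

theorem thm_FAM : St_WPP → St_FAM := by
  intro hWPP
  obtain ⟨p0, ⟨hp0, hW⟩, hN⟩ := hWPP (hyperfilter ℕ)
  refine ⟨hyperfilter ℕ, fun ξ => p0.map (FAM_phi ξ), hyperfilter_le_cofinite, ?_, ?_⟩
  · intro ξ η h
    by_contra hne
    have h1 : range (FAM_phi ξ) ∈ p0.map (FAM_phi ξ) := by
      rw [Ultrafilter.mem_map, Set.preimage_range]
      exact Filter.univ_mem
    have h2 : range (FAM_phi η) ∈ p0.map (FAM_phi ξ) := by
      change p0.map (FAM_phi ξ) = p0.map (FAM_phi η) at h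
      rw [h, Ultrafilter.mem_map, Set.preimage_range]
      exact Filter.univ_mem
    have h3 : (range (FAM_phi ξ) ∩ range (FAM_phi η))ᶜ ∈ p0.map (FAM_phi ξ) :=
      FAM_map_le (FAM_phi_inj ξ) hp0 (Filter.mem_cofinite.2 (by rw [compl_compl]; exact FAM_fin hne))
    exact (Ultrafilter.compl_notMem_iff.2 (Filter.inter_mem h1 h2)) h3
  · intro ξ
    set φ := FAM_phi ξ with hφdef
    have hφ : Function.Injective φ := FAM_phi_inj ξ
    obtain ⟨ψ, hψ⟩ : ∃ ψ : ℕ → ℕ, ∀ n, ψ (φ n) = n :=
      ⟨Function.invFun φ, fun n => Function.leftInverse_invFun hφ n⟩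
    refine ⟨⟨FAM_map_le hφ hp0, ?_⟩, ?_⟩
    · intro r hr hrp
      -- the ultrafilters concentrated on the range
      have hpre : ∀ n, range φ ∈ r n → ((r n).map ψ).map φ = r n := by
        intro n hn
        refine (Ultrafilter.eq_of_le fun s hs => ?_)
        rw [Ultrafilter.mem_coe, Ultrafilter.mem_map, Ultrafilter.mem_map]
        refine Filter.mem_of_superset (Filter.inter_mem hn hs) ?_
        rintro _ ⟨⟨k, rfl⟩, hk⟩
        change φ (ψ (φ k)) ∈ s
        rw [hψ]
        exact hk
      have hr'c : ∀ n, range φ ∈ r n → (((r n).map ψ : Ultrafilter ℕ) : Filter ℕ) ≤ cofinite := by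
        intro n hn s hs
        rw [Ultrafilter.mem_coe, Ultrafilter.mem_map]
        have h1 : (φ '' sᶜ)ᶜ ∈ r n :=
          hr n (Filter.mem_cofinite.2 (by rw [compl_compl]; exact (Filter.mem_cofinite.1 hs).image φ))
        refine Filter.mem_of_superset (Filter.inter_mem hn h1) ?_
        rintro _ ⟨⟨k, rfl⟩, hk⟩
        change ψ (φ k) ∈ s
        rw [hψ]
        by_contra hc
        exact hk ⟨k, hc, rfl⟩
      have hr'p : ∀ n, range φ ∈ r n → (r n).map ψ ≠ p0 := by
        intro n hn h
        apply hrp n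
        rw [← hpre n hn, h]
      by_cases hex : ∃ n0, range φ ∈ r n0
      · obtain ⟨n0, hn0⟩ := hex
        classical
        obtain ⟨V', hV1, hV2⟩ := hW (fun n => if range φ ∈ r n then (r n).map ψ else (r n0).map ψ)
          (by
            intro n
            by_cases h : range φ ∈ r n
            · simp only [h, if_true]; exact hr'c n h
            · simp only [h, if_false]; exact hr'c n0 hn0)
          (by
            intro n
            by_cases h : range φ ∈ r n
            · simp only [h, if_true]; exact hr'p n h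
            · simp only [h, if_false]; exact hr'p n0 hn0)
        refine ⟨φ '' V', ?_, fun n hn => ?_⟩
        · rw [Ultrafilter.mem_map, Set.preimage_image_eq _ hφ]
          exact hV1
        · have h : range φ ∈ r n :=
            Filter.mem_of_superset hn (Set.image_subset_range φ V')
          have h2 := hV2 n
          simp only [h, if_true] at h2
          apply h2
          rw [Ultrafilter.mem_map]
          refine Filter.mem_of_superset hn ?_
          rintro _ ⟨k, hk, rfl⟩
          change ψ (φ k) ∈ V'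
          rw [hψ]
          exact hk
      · push Not at hex
        refine ⟨range φ, ?_, hex⟩
        rw [Ultrafilter.mem_map, Set.preimage_range]
        exact Filter.univ_mem
    · intro g h
      apply hN (ψ ∘ g)
      change (hyperfilter ℕ).map g = p0.map φ at h
      rw [← Ultrafilter.map_map, h, Ultrafilter.map_map]
      have : (ψ ∘ φ : ℕ → ℕ) = id := by funext k; exact hψ k
      rw [this, Ultrafilter.map_id]

end Pool.Agent.HFP
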