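import Pool.Agent.HFP.St

/-!
# HFP, IND: basic facts on independence
-/

set_option autoImplicit false

open Filter Topology Set

namespace Pool.Agent.HFP

private lemma IND_one {F : Filter SS} {J J' : Set (Set ℕ)} (h : Ind F J) (hJ : J' ⊆ J) :
    Ind F J' :=
  ⟨h.1, fun D n hD => h.2 D n ⟨fun z hz => hJ (hD.1 z hz), hD.2⟩⟩

theorem thm_IND : St_MAT → St_IND := by
  classical
  intro hM
  refine ⟨fun F J J' h hJ => IND_one h hJ, ?_, ?_, ?_⟩
  · intro G J hG hch hI
    obtain ⟨F1, hF1⟩ := hG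
    refine ⟨(sInf_le hF1).trans (hI F1 hF1).1, fun D n hD A hA => ?_⟩
    rw [sInf_eq_iInf, mem_biInf_of_directed ?_ ⟨F1, hF1⟩] at hA
    · obtain ⟨F, hF, hAF⟩ := hA
      exact (hI F hF).2 D n hD A hAF
    · intro F hF F' hF'
      rcases hch.total hF hF' with h | h
      · exact ⟨F, hF, le_refl F, h⟩
      · exact ⟨F', hF', h, le_refl F'⟩
  · intro F J D0 n0 hI h0
    refine ⟨inf_le_left.trans hI.1, fun D n hD A hA => ?_⟩
    obtain ⟨A', hA', hAA⟩ := mem_inf_principal'.1 hA |> fun h => (⟨_, h, fun s hs => hs⟩ :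
      ∃ A', A' ∈ F ∧ A' ⊆ (Bx D0 n0)ᶜ ∪ A)
    have hrow : ∀ z ∈ D, ∀ w ∈ D0, z.1 ≠ w.1 := fun z hz w hw he =>
      (hD.1 z hz).2 ⟨w, hw, he.symm⟩
    obtain ⟨s, hs1, hs2⟩ := hI.2 (D0 ∪ D) (fun X => if ∃ w ∈ D0, w.1 = X then n0 X else n X)
      ⟨fun z hz => by
        rcases Finset.mem_union.1 hz with h | h
        · exact h0.1 z h
        · exact (hD.1 z h).1, fun X => by
        show _ ≤ (if ∃ w ∈ D0, w.1 = X then n0 X else n X)
        by_cases hX : ∃ w ∈ D0, w.1 = X
        · rw [if_pos hX]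
          refine le_trans (Finset.card_le_card ?_) (h0.2 X)
          intro z hz
          obtain ⟨h1, h2⟩ := Finset.mem_filter.1 hz
          rcases Finset.mem_union.1 h1 with h | h
          · exact Finset.mem_filter.2 ⟨h, h2⟩
          · obtain ⟨w, hw, hwX⟩ := hX
            exact absurd (h2.trans hwX.symm) (hrow z h w hw)
        · rw [if_neg hX]
          refine le_trans (Finset.card_le_card ?_) (hD.2 X)
          intro z hz
          obtain ⟨h1, h2⟩ := Finset.mem_filter.1 hz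
          rcases Finset.mem_union.1 h1 with h | h
          · exact absurd ⟨z, h, h2⟩ hX
          · exact Finset.mem_filter.2 ⟨h, h2⟩⟩ A' hA'
    have hb0 : s ∈ Bx D0 n0 := by
      intro z hz
      have h1 := hs2 z (Finset.mem_union_left _ hz)
      have h2 : ∃ w ∈ D0, w.1 = z.1 := ⟨z, hz, rfl⟩
      simp only [if_pos h2] at h1
      exact h1
    have hb : s ∈ Bx D n := by
      intro z hz
      have h1 := hs2 z (Finset.mem_union_right _ hz)
      have h2 : ¬ ∃ w ∈ D0, w.1 = z.1 := by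
        rintro ⟨w, hw, he⟩
        exact hrow z hz w hw he.symm
      simp only [if_neg h2] at h1
      exact h1
    refine ⟨s, ?_, hb⟩
    rcases hAA hs1 with h | h
    · exact absurd hb0 h
    · exact h
  · refine ⟨le_refl _, fun D n hD A hA => ?_⟩
    have h1 := hM.2.2.1 D n hD
    have h2 : Aᶜ.Finite := mem_cofinite.1 hA
    obtain ⟨s, hs, hs'⟩ := h1.exists_notMem_finite h2
    exact ⟨s, not_not.1 hs', hs⟩

end Pool.Agent.HFP
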