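import Pool.Agent.HFP.St

/-!
# HFP, KUN: the lemma of Kunen
-/

set_option autoImplicit false

open Filter Topology Set

namespace Pool.Agent.HFP

/-- images of disjoint index sets under a strongly discrete sequence -/
private lemma KUN_sep {K : Type} [TopologicalSpace K] (hK : SepC K) {d : ℕ → K} {O : ℕ → Set K}
    {N : ℕ} (hO : ∀ m, IsOpen (O m)) (hd : ∀ m n, m ≠ n → Disjoint (O m) (O n))
    (hN : ∀ m, N ≤ m → d m ∈ O m) {S S' : Set ℕ} (hS : ∀ m ∈ S, N ≤ m) (hS' : ∀ m ∈ S', N ≤ m)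
    (hSS : Disjoint S S') : Disjoint (closure (d '' S)) (closure (d '' S')) := by
  have key : ∀ {S S' : Set ℕ}, (∀ m ∈ S, N ≤ m) → (∀ m ∈ S', N ≤ m) → Disjoint S S' →
      Disjoint (closure (d '' S)) (d '' S') := by
    intro S S' hS hS' hSS
    rw [Set.disjoint_left]
    rintro _ h1 ⟨m, hm, rfl⟩
    obtain ⟨_, h2, k, hk, rfl⟩ := mem_closure_iff.1 h1 (O m) (hO m) (hN m (hS' m hm))
    have hne : k ≠ m := fun h => Set.disjoint_left.1 hSS hk (h ▸ hm)
    exact Set.disjoint_left.1 (hd k m hne) (hN k (hS k hk)) h2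
  exact hK _ _ ((Set.to_countable S).image d) ((Set.to_countable S').image d) (key hS hS' hSS)
    (key hS' hS hSS.symm).symm

theorem thm_KUN : St_KUN := by
  intro K _ _ hK p q d e y hWP hNR hSD hd he
  classical
  obtain ⟨O, hO, hdisj, hev⟩ := hSD
  obtain ⟨N, hN⟩ := eventually_atTop.1 hev
  have hpN : {m | N ≤ m} ∈ p := by
    refine hWP.1 ?_
    rw [mem_cofinite]
    refine (Set.finite_Iio N).subset fun m hm => ?_
    simpa using hm
  by_contra hcon
  have hcon' : {n | e n ≠ y} ∈ q := Ultrafilter.compl_mem_iff_notMem.2 hcon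
  -- step 1
  obtain ⟨U0, hU0, hM0⟩ : ∃ U0 ∈ q, {m | d m ∉ closure (e '' U0)} ∈ p := by
    by_contra h1
    push Not at h1
    have h2 : ∀ U ∈ q, {m | d m ∈ closure (e '' U)} ∈ p := by
      intro U hU
      have h3 := Ultrafilter.compl_mem_iff_notMem.2 (h1 U hU)
      filter_upwards [h3] with m hm
      by_contra h4
      exact hm h4
    let g : ℕ → ℕ := fun n => if h : ∃ m, e n ∈ O m then h.choose else 0
    have hg : ∀ n m, e n ∈ O m → g n = m := by
      intro n m hm
      have h3 : ∃ m, e n ∈ O m := ⟨m, hm⟩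
      have h4 : e n ∈ O (g n) := by
        show e n ∈ O (if h : ∃ m, e n ∈ O m then h.choose else 0)
        rw [dif_pos h3]
        exact h3.choose_spec
      by_contra h5
      exact Set.disjoint_left.1 (hdisj _ _ h5) h4 hm
    refine hNR g (Ultrafilter.eq_of_le fun V hV => ?_)
    show g ⁻¹' V ∈ q
    by_contra h3
    have h4 := h2 _ (Ultrafilter.compl_mem_iff_notMem.2 h3)
    obtain ⟨m, hm1, hm2, hm3⟩ := (p.neBot.nonempty_of_mem
      (inter_mem h4 (inter_mem hV hpN)))
    obtain ⟨_, h5, n, hn, rfl⟩ := mem_closure_iff.1 hm1 (O m) (hO m) (hN m hm3)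
    refine hn ?_
    show g n ∈ V
    rw [hg n m h5]
    exact hm2
  -- step 2
  obtain ⟨V0, hV0, hN0⟩ : ∃ V0 ∈ p, {n | e n ∉ closure (d '' V0)} ∈ q := by
    by_contra h1
    push Not at h1
    have h2 : ∀ V ∈ p, {n | e n ∈ closure (d '' V)} ∈ q := by
      intro V hV
      have h3 := Ultrafilter.compl_mem_iff_notMem.2 (h1 V hV)
      filter_upwards [h3] with n hn
      by_contra h4
      exact hn h4
    have hQ : {n | e n ∈ closure (d '' {m | N ≤ m})} ∩ {n | e n ≠ y} ∈ q :=
      inter_mem (h2 _ hpN) hcon'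
    have hr : ∀ n, ∃ r : Ultrafilter ℕ, (e n ∈ closure (d '' {m | N ≤ m}) →
        {m | N ≤ m} ∈ r ∧ Tendsto d r (𝓝 (e n))) := by
      intro n
      by_cases h : e n ∈ closure (d '' {m | N ≤ m})
      · have h3 : (comap d (𝓝 (e n)) ⊓ 𝓟 {m | N ≤ m}).NeBot := by
          rw [inf_principal_neBot_iff]
          rintro U ⟨W, hW, hWU⟩
          obtain ⟨_, h4, m, hm, rfl⟩ := mem_closure_iff_nhds.1 h W hW
          exact ⟨m, hWU h4, hm⟩
        have h4 := Ultrafilter.of_le (comap d (𝓝 (e n)) ⊓ 𝓟 {m | N ≤ m})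
        refine ⟨Ultrafilter.of (comap d (𝓝 (e n)) ⊓ 𝓟 {m | N ≤ m}), fun _ => ⟨?_, ?_⟩⟩
        · exact le_principal_iff.1 (h4.trans inf_le_right)
        · exact tendsto_comap.mono_left (h4.trans inf_le_left)
      · exact ⟨p, fun h' => absurd h' h⟩
    choose r hr using hr
    have hrp : ∀ n ∈ {n | e n ∈ closure (d '' {m | N ≤ m})} ∩ {n | e n ≠ y}, r n ≠ p := by
      rintro n ⟨hn1, hn2⟩ h3
      have h4 := (hr n hn1).2
      rw [h3] at h4
      exact hn2 (tendsto_nhds_unique h4 hd)
    by_cases hpr : {n | ∃ m, r n = pure m} ∈ q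
    · -- principal
      let g : ℕ → ℕ := fun n => if h : ∃ m, r n = pure m then h.choose else 0
      have hg : ∀ n, (∃ m, r n = pure m) → r n = pure (g n) := by
        intro n hn
        show r n = pure (if h : ∃ m, r n = pure m then h.choose else 0)
        rw [dif_pos hn]
        exact hn.choose_spec
      refine hNR g (Ultrafilter.eq_of_le fun V hV => ?_)
      have h3 := h2 _ (inter_mem hV hpN)
      show g ⁻¹' V ∈ q
      filter_upwards [h3, hQ, hpr] with n hn1 hn2 hn3
      have h4 := hg n hn3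
      obtain ⟨h5, h6⟩ := hr n hn2.1
      rw [h4] at h5 h6
      have h5' : N ≤ g n := by simpa using h5
      have h7 : d (g n) = e n := by
        rw [Ultrafilter.coe_pure] at h6
        exact tendsto_nhds_unique (tendsto_pure_nhds d (g n)) h6
      obtain ⟨_, h8, m, hm, rfl⟩ := mem_closure_iff.1 hn1 (O (g n)) (hO _)
        (h7 ▸ hN _ h5')
      have h9 : m = g n := by
        by_contra h10
        exact Set.disjoint_left.1 (hdisj _ _ h10) (hN m hm.2) h8
      show g n ∈ V
      rw [← h9]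
      exact hm.1
    · -- nonprincipal
      have hQ2 : ({n | e n ∈ closure (d '' {m | N ≤ m})} ∩ {n | e n ≠ y}) ∩
          {n | ∃ m, r n = pure m}ᶜ ∈ q := inter_mem hQ (Ultrafilter.compl_mem_iff_notMem.2 hpr)
      obtain ⟨n0, hn0⟩ := q.neBot.nonempty_of_mem hQ2
      have hnp : ∀ n ∈ ({n | e n ∈ closure (d '' {m | N ≤ m})} ∩ {n | e n ≠ y}) ∩
          {n | ∃ m, r n = pure m}ᶜ, (r n : Filter ℕ) ≤ cofinite := by
        rintro n ⟨_, hn⟩
        rcases (r n).le_cofinite_or_eq_pure with h3 | h3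
        · exact h3
        · exact absurd h3 hn
      let r' : ℕ → Ultrafilter ℕ := fun n =>
        if n ∈ ({n | e n ∈ closure (d '' {m | N ≤ m})} ∩ {n | e n ≠ y}) ∩
          {n | ∃ m, r n = pure m}ᶜ then r n else r n0
      have hr'1 : ∀ n, (r' n : Filter ℕ) ≤ cofinite := by
        intro n
        by_cases h3 : n ∈ ({n | e n ∈ closure (d '' {m | N ≤ m})} ∩ {n | e n ≠ y}) ∩
          {n | ∃ m, r n = pure m}ᶜ
        · have : r' n = r n := if_pos h3
          rw [this]
          exact hnp n h3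
        · have : r' n = r n0 := if_neg h3
          rw [this]
          exact hnp n0 hn0
      have hr'2 : ∀ n, r' n ≠ p := by
        intro n
        by_cases h3 : n ∈ ({n | e n ∈ closure (d '' {m | N ≤ m})} ∩ {n | e n ≠ y}) ∩
          {n | ∃ m, r n = pure m}ᶜ
        · have : r' n = r n := if_pos h3
          rw [this]
          exact hrp n h3.1
        · have : r' n = r n0 := if_neg h3
          rw [this]
          exact hrp n0 hn0.1
      obtain ⟨V, hV, hVr⟩ := hWP.2 r' hr'1 hr'2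
      obtain ⟨n, hn1, hn2⟩ := q.neBot.nonempty_of_mem
        (inter_mem (h2 _ (inter_mem hV hpN)) hQ2)
      have h3 : r' n = r n := if_pos hn2
      have h4 : V ∉ r n := h3 ▸ hVr n
      have h5 : Vᶜ ∈ r n := Ultrafilter.compl_mem_iff_notMem.2 h4
      obtain ⟨h6, h7⟩ := hr n hn2.1.1
      have h8 : e n ∈ closure (d '' (Vᶜ ∩ {m | N ≤ m})) :=
        mem_closure_of_tendsto h7 (Filter.mem_of_superset (inter_mem h5 h6) fun k hk =>
          mem_image_of_mem d hk)
      refine Set.disjoint_left.1 (KUN_sep hK hO hdisj hN (S := V ∩ {m | N ≤ m})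
        (S' := Vᶜ ∩ {m | N ≤ m}) (fun m hm => hm.2) (fun m hm => hm.2) ?_) hn1 h8
      rw [Set.disjoint_left]
      rintro m hm1 hm2
      exact hm2.1 hm1.1
  -- step 3
  have hd3 : Disjoint (closure (e '' (U0 ∩ {n | e n ∉ closure (d '' V0)})))
      (closure (d '' (V0 ∩ {m | d m ∉ closure (e '' U0)}))) := by
    refine hK _ _ ((Set.to_countable _).image e) ((Set.to_countable _).image d) ?_ ?_
    · rw [Set.disjoint_left]
      rintro _ h1 ⟨m, hm, rfl⟩
      exact hm.2 (closure_mono (image_mono inter_subset_left) h1)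
    · rw [Set.disjoint_left]
      rintro _ ⟨n, hn, rfl⟩ h1
      exact hn.2 (closure_mono (image_mono inter_subset_left) h1)
  have hy1 : y ∈ closure (e '' (U0 ∩ {n | e n ∉ closure (d '' V0)})) :=
    mem_closure_of_tendsto he (Filter.mem_of_superset (inter_mem hU0 hN0) fun n hn =>
      mem_image_of_mem e hn)
  have hy2 : y ∈ closure (d '' (V0 ∩ {m | d m ∉ closure (e '' U0)})) :=
    mem_closure_of_tendsto hd (Filter.mem_of_superset (inter_mem hV0 hM0) fun n hn =>
      mem_image_of_mem d hn)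
  exact Set.disjoint_left.1 hd3 hy1 hy2

end Pool.Agent.HFP
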