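import Pool.Agent.HFP.St

/-!
# HFP, MAT: the matrix of Kunen
-/

set_option autoImplicit false

open Filter Topology Set

namespace Pool.Agent.HFP

private lemma MAT_mem (X : Set ℕ) (k : ℕ) (i : Fin k) : i ∈ tr X k ↔ (i : ℕ) ∈ X := by
  classical
  simp [tr]

private lemma MAT_pair (Y Z : Set ℕ) : ∃ k0 : ℕ, ∀ k, k0 ≤ k → tr Y k = tr Z k → Y = Z := by
  by_cases h : Y = Z
  · exact ⟨0, fun _ _ _ => h⟩
  · have h1 : ∃ j, ¬ (j ∈ Y ↔ j ∈ Z) := by
      by_contra h2
      push Not at h2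
      exact h (Set.ext h2)
    obtain ⟨j, hj⟩ := h1
    refine ⟨j + 1, fun k hk he => absurd ?_ hj⟩
    have h2 := MAT_mem Y k ⟨j, hk⟩
    have h3 := MAT_mem Z k ⟨j, hk⟩
    rw [he] at h2
    exact h2.symm.trans h3

private lemma MAT_sep (T : Finset (Set ℕ)) :
    ∃ k0 : ℕ, ∀ k, k0 ≤ k → ∀ Y ∈ T, ∀ Z ∈ T, tr Y k = tr Z k → Y = Z := by
  choose N hN using MAT_pair
  refine ⟨T.sup fun Y => T.sup fun Z => N Y Z, fun k hk Y hY Z hZ he => hN Y Z k ?_ he⟩
  calc N Y Z ≤ T.sup fun Z => N Y Z := Finset.le_sup (f := fun Z => N Y Z) hZ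
    _ ≤ T.sup fun Y => T.sup fun Z => N Y Z := Finset.le_sup (f := fun Y => T.sup fun Z => N Y Z) hY
    _ ≤ k := hk

theorem thm_MAT : St_MAT := by
  classical
  refine ⟨?_, ?_, ?_, ?_, ?_⟩
  · rintro X Y m n hmn s ⟨h1, h2⟩
    exact ⟨h1, h2.trans hmn⟩
  · intro X n T hT
    obtain ⟨k0, hk0⟩ := MAT_sep T
    refine ((Set.finite_Iio k0).biUnion (t := fun k : ℕ => Set.range fun f => (⟨k, f⟩ : SS))
      fun k _ => Set.finite_range _).subset ?_
    rintro ⟨k, f⟩ hs
    rw [Set.mem_iUnion₂]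
    refine ⟨k, ?_, f, rfl⟩
    show k < k0
    by_contra hk
    push Not at hk
    have h1 : T.image (fun Y => tr Y k) ⊆ f (tr X k) := by
      intro Q hQ
      obtain ⟨Y, hY, rfl⟩ := Finset.mem_image.1 hQ
      exact (hs Y hY).1
    have h2 : (T.image fun Y => tr Y k).card = T.card :=
      Finset.card_image_of_injOn fun Y hY Z hZ he => hk0 k hk Y hY Z hZ he
    have h3 : T.Nonempty := Finset.card_pos.1 (by omega)
    obtain ⟨Y, hY⟩ := h3
    have h4 : (f (tr X k)).card ≤ n := (hs Y hY).2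
    have h5 := Finset.card_le_card h1
    omega
  · intro D n hD
    obtain ⟨k0, hk0⟩ := MAT_sep (D.image Prod.fst)
    refine Set.infinite_of_injective_forall_mem (f := fun j : ℕ => (⟨k0 + j, fun Q =>
      (D.filter fun z => tr z.1 (k0 + j) = Q).image fun z => tr z.2 (k0 + j)⟩ : SS)) ?_ ?_
    · intro j j' h
      have h1 : k0 + j = k0 + j' := congrArg Sigma.fst h
      omega
    · intro j z hz
      have h1 : (D.filter fun w => tr w.1 (k0 + j) = tr z.1 (k0 + j)) =
          D.filter fun w => w.1 = z.1 := by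
        refine Finset.filter_congr fun w hw => ⟨fun h => ?_, fun h => by rw [h]⟩
        exact hk0 _ (Nat.le_add_right _ _) _ (Finset.mem_image_of_mem _ hw) _
          (Finset.mem_image_of_mem _ hz) h
      refine ⟨?_, ?_⟩
      · exact Finset.mem_image.2 ⟨z, Finset.mem_filter.2 ⟨hz, rfl⟩, rfl⟩
      · refine Finset.card_image_le.trans ?_
        show (D.filter fun w => tr w.1 (k0 + j) = tr z.1 (k0 + j)).card ≤ n z.1
        rw [h1]
        refine (le_of_eq ?_).trans (hD.2 z.1)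
        congr
  · exact inferInstanceAs (Countable (Σ k : ℕ, (Finset (Fin k) → Finset (Finset (Fin k)))))
  · exact Infinite.of_injective (fun k : ℕ => (⟨k, fun _ => ∅⟩ : SS)) fun a b h =>
      congrArg Sigma.fst h

end Pool.Agent.HFP
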