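import Pool.Agent.HFP.St

/-!
# HFP, NRK: a set of the filter which is not in a given ultrafilter
-/

set_option autoImplicit false

open Filter Topology Set

namespace Pool.Agent.HFP

private lemma NRK_box (X Y : Set ℕ) : Bx {(X, Y)} (fun _ => 1) = mat X Y 1 := by
  ext s
  simp [Bx]

private lemma NRK_aux (hIND : St_IND) {F : Filter SS} {J : Set (Set ℕ)} {X Y : Set ℕ}
    {u : Ultrafilter SS} (hI : Ind F J) (hX : X ∈ J) (hY : mat X Y 1 ∉ u) :
    ∃ F' ≤ F, Ind F' (J \ {X}) ∧ ∃ B ∈ F', B ∉ u := by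
  classical
  have h1 := hIND.2.2.1 F J {(X, Y)} (fun _ => 1) hI ⟨fun z hz => by
    rw [Finset.mem_singleton.1 hz]
    exact hX, fun R => (Finset.card_filter_le _ _).trans (by simp)⟩
  have e : {R : Set ℕ | ∃ z ∈ ({(X, Y)} : Finset (Set ℕ × Set ℕ)), z.1 = R} = {X} := by
    ext R
    simp only [Finset.mem_singleton, exists_eq_left, mem_singleton_iff]
    exact ⟨fun h => h.symm, fun h => h.symm⟩
  rw [NRK_box, e] at h1
  exact ⟨_, inf_le_left, h1, mat X Y 1, mem_inf_of_right (mem_principal_self _), hY⟩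

theorem thm_NRK : St_MAT → St_IND → St_NRK := by
  classical
  intro hM hIND F J X u hI hX
  have hC : (mat X ∅ 1 ∩ mat X univ 1).Finite := by
    have hne : (∅ : Set ℕ) ≠ univ := empty_ne_univ
    refine (hM.2.1 X 1 {∅, univ} (by rw [Finset.card_pair hne]; norm_num)).subset ?_
    rintro s ⟨h1, h2⟩ Y hY
    rcases Finset.mem_insert.1 hY with rfl | h
    · exact h1
    · rw [Finset.mem_singleton.1 h]
      exact h2
  by_cases h1 : mat X ∅ 1 ∈ u
  · by_cases h2 : mat X univ 1 ∈ u
    · refine ⟨F, le_refl F, hIND.1 F J _ hI sdiff_subset, (mat X ∅ 1 ∩ mat X univ 1)ᶜ,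
        hI.1 ?_, ?_⟩
      · rw [mem_cofinite, compl_compl]
        exact hC
      · rw [Ultrafilter.compl_mem_iff_notMem, not_not]
        exact inter_mem h1 h2
    · exact NRK_aux hIND hI hX h2
  · exact NRK_aux hIND hI hX h1

end Pool.Agent.HFP
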