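import Pool.Agent.HFP.St

/-!
# HFP, OKS: adding linked sets below a sequence of members of the filter
-/

set_option autoImplicit false

open Filter Topology Set

namespace Pool.Agent.HFP

/-- the set of the column `Y` -/
private def OKSV (X : Set ℕ) (U : ℕ → Set SS) (Y : Set ℕ) : Set SS :=
  {s | s ∈ U 0 ∧ ∀ m, (∀ k ≤ m, s ∈ U k) → s ∉ U (m + 1) → s ∈ mat X Y m}

private theorem OKS_lnk (hM : St_MAT) (X : Set ℕ) (U : ℕ → Set SS) : Lnk U (OKSV X U) := by
  classical
  intro n T hT
  have h1 : (⋃ m ∈ Finset.range (n + 1), {s | ∀ Y ∈ T, s ∈ mat X Y m}).Finite := by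
    refine Set.Finite.biUnion (Finset.finite_toSet _) fun m hm => ?_
    refine hM.2.1 X m T ?_
    have := Finset.mem_range.1 (Finset.mem_coe.1 hm)
    omega
  refine h1.subset ?_
  rintro s ⟨hs, m, hm, hsm⟩
  have hex : ∃ m, s ∉ U m := ⟨m, hsm⟩
  have h2 := Nat.find_spec hex
  have h3 : Nat.find hex ≤ n + 1 := (Nat.find_min' hex hsm).trans hm
  have h4 : ∀ k < Nat.find hex, s ∈ U k := fun k hk => not_not.1 (Nat.find_min hex hk)
  obtain ⟨Y0, hY0⟩ : T.Nonempty := Finset.card_pos.1 (by omega)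
  have h5 : Nat.find hex ≠ 0 := by
    intro h
    rw [h] at h2
    exact h2 (hs Y0 hY0).1
  obtain ⟨j, hj⟩ := Nat.exists_eq_succ_of_ne_zero h5
  rw [hj] at h2 h3 h4
  refine Set.mem_biUnion (x := j) (Finset.mem_coe.2 (Finset.mem_range.2 (by omega))) ?_
  intro Y hY
  exact (hs Y hY).2 j (fun k hk => h4 k (by omega)) h2

theorem thm_OKS : St_MAT → St_IND → St_OKS := by
  classical
  intro hM _ F J X U hI hX hU
  refine ⟨OKSV X U, OKS_lnk hM X U, inf_le_left.trans hI.1, ?_⟩
  intro D n hD A hA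
  obtain ⟨A', hA', B, hB, rfl⟩ := Filter.mem_inf_iff.1 hA
  obtain ⟨T, hT⟩ := (Filter.mem_iInf_finite B).1 hB
  rw [Filter.iInf_principal_finset, Filter.mem_principal] at hT
  have hA2 : A' ∩ (⋂ k ∈ Finset.range (T.card + 1), U k) ∈ F :=
    Filter.inter_mem hA' ((Filter.biInter_finset_mem _).2 fun k _ => hU k)
  obtain ⟨D', hD'⟩ : ∃ D' : Finset (Set ℕ × Set ℕ), D' = D ∪ T.image (fun Y => (X, Y)) := ⟨_, rfl⟩
  obtain ⟨n', hn'⟩ : ∃ n' : Set ℕ → ℕ, n' = fun R => if R = X then T.card else n R := ⟨_, rfl⟩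
  have hDX : ∀ z ∈ D, z.1 ≠ X := fun z hz h => (hD.1 z hz).2 h
  have hadm : Adm J D' n' := by
    refine ⟨fun z hz => ?_, fun R => ?_⟩
    · rw [hD', Finset.mem_union, Finset.mem_image] at hz
      rcases hz with hz | ⟨Y, -, rfl⟩
      · exact (hD.1 z hz).1
      · exact hX
    · by_cases hR : R = X
      · have h1 : (D'.filter fun z => z.1 = R) ⊆ T.image (fun Y => (X, Y)) := by
          intro z hz
          rw [Finset.mem_filter, hD', Finset.mem_union] at hz
          rcases hz.1 with h2 | h2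
          · exact absurd (hz.2.trans hR) (hDX z h2)
          · exact h2
        have h2 := (Finset.card_le_card h1).trans Finset.card_image_le
        rw [hn']
        simp only [if_pos hR]
        refine le_trans (le_of_eq ?_) h2
        congr
      · have h1 : (D'.filter fun z => z.1 = R) ⊆ D.filter fun z => z.1 = R := by
          intro z hz
          rw [Finset.mem_filter, hD', Finset.mem_union, Finset.mem_image] at hz
          rw [Finset.mem_filter]
          rcases hz.1 with h2 | ⟨Y, -, rfl⟩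
          · exact ⟨h2, hz.2⟩
          · exact absurd hz.2.symm hR
        have h2 := (Finset.card_le_card h1).trans (le_trans (le_of_eq (by congr)) (hD.2 R))
        rw [hn']
        simp only [if_neg hR]
        refine le_trans (le_of_eq ?_) h2
        congr
  obtain ⟨s, ⟨hs1, hs2⟩, hs3⟩ := hI.2 D' n' hadm _ hA2
  have hsU : ∀ k ≤ T.card, s ∈ U k := fun k hk =>
    Set.mem_iInter₂.1 hs2 k (Finset.mem_range.2 (by omega))
  refine ⟨s, ⟨hs1, hT ?_⟩, ?_⟩
  · refine Set.mem_iInter₂.2 fun Y hY => ⟨hsU 0 (Nat.zero_le _), fun m hm1 hm2 => ?_⟩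
    have h1 : T.card ≤ m := by
      by_contra h2
      exact hm2 (hsU (m + 1) (by omega))
    have h2 := hs3 (X, Y) (by
      rw [hD']
      exact Finset.mem_union_right _ (Finset.mem_image_of_mem _ hY))
    rw [hn'] at h2
    simp only [if_true] at h2
    exact hM.1 X Y _ _ h1 h2
  · intro z hz
    have h2 := hs3 z (by
      rw [hD']
      exact Finset.mem_union_left _ hz)
    rw [hn'] at h2
    simp only [if_neg (hDX z hz)] at h2
    exact h2

end Pool.Agent.HFP
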