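import Pool.Agent.HFP.St

/-!
# HFP: module SDL

Limits of strongly discrete sequences.
-/

set_option autoImplicit false

open Filter Topology Set

namespace Pool.Agent.HFP

theorem SDL_half {K : Type} [TopologicalSpace K] {a : ℕ → K} {O : ℕ → Set K}
    (hO : ∀ m, IsOpen (O m)) (hd : ∀ m n, m ≠ n → Disjoint (O m) (O n)) {N : ℕ}
    (hN : ∀ m, N ≤ m → a m ∈ O m) {S S' : Set ℕ} (hS : ∀ m ∈ S, N ≤ m) (hS' : ∀ m ∈ S', N ≤ m)
    (h : Disjoint S S') : Disjoint (closure (a '' S)) (a '' S') := by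
  rw [Set.disjoint_right]
  rintro _ ⟨m, hm, rfl⟩ hx
  rw [mem_closure_iff] at hx
  obtain ⟨z, hz1, k, hk, rfl⟩ := hx (O m) (hO m) (hN m (hS' m hm))
  by_cases hkm : k = m
  · subst hkm
    exact Set.disjoint_left.1 h hk hm
  · exact Set.disjoint_left.1 (hd k m hkm) (hN k (hS k hk)) hz1

theorem SDL_sep {K : Type} [TopologicalSpace K] (hK : SepC K) {a : ℕ → K} {O : ℕ → Set K}
    (hO : ∀ m, IsOpen (O m)) (hd : ∀ m n, m ≠ n → Disjoint (O m) (O n)) {N : ℕ}
    (hN : ∀ m, N ≤ m → a m ∈ O m) {S S' : Set ℕ} (hS : ∀ m ∈ S, N ≤ m) (hS' : ∀ m ∈ S', N ≤ m)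
    (h : Disjoint S S') : Disjoint (closure (a '' S)) (closure (a '' S')) :=
  hK _ _ (S.to_countable.image a) (S'.to_countable.image a) (SDL_half hO hd hN hS hS' h)
    (SDL_half hO hd hN hS' hS h.symm).symm

theorem thm_SDL : St_SDL := by
  intro K _ hK a ha
  obtain ⟨O, hO, hd, hev⟩ := ha
  rw [eventually_atTop] at hev
  obtain ⟨N, hN⟩ := hev
  constructor
  · intro p p' y hp hp' hne hy hy'
    have h1 : ∃ S : Set ℕ, S ∈ p ∧ S ∉ p' := by
      by_contra hno
      push Not at hno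
      apply hne
      have h2 : (p' : Filter ℕ) ≤ p := fun S hS => hno S hS
      exact (Ultrafilter.coe_le_coe.1 h2).symm
    obtain ⟨S, hS, hS'⟩ := h1
    have hc : Sᶜ ∈ p' := Ultrafilter.compl_mem_iff_notMem.2 hS'
    have hT : Set.Ici N ∈ (cofinite : Filter ℕ) := by
      rw [Nat.cofinite_eq_atTop]
      exact Ici_mem_atTop N
    have hT1 : Set.Ici N ∈ (p : Filter ℕ) := hp hT
    have hT2 : Set.Ici N ∈ (p' : Filter ℕ) := hp' hT
    have c1 : y ∈ closure (a '' (S ∩ Set.Ici N)) :=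
      mem_closure_of_tendsto hy (by
        filter_upwards [hS, hT1] with m h1 h2
        exact ⟨m, ⟨h1, h2⟩, rfl⟩)
    have c2 : y ∈ closure (a '' (Sᶜ ∩ Set.Ici N)) :=
      mem_closure_of_tendsto hy' (by
        filter_upwards [hc, hT2] with m h1 h2
        exact ⟨m, ⟨h1, h2⟩, rfl⟩)
    refine Set.disjoint_left.1 (SDL_sep hK hO hd hN (fun m hm => hm.2) (fun m hm => hm.2) ?_) c1 c2
    rw [Set.disjoint_left]
    exact fun m h1 h2 => h2.1 h1.1
  · intro φ y hφ hy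
    have c1 : y ∈ closure (a '' {m | ∃ k, N ≤ k ∧ m = φ (2 * k)}) := by
      have h1 : Tendsto (fun k : ℕ => 2 * k) atTop atTop :=
        tendsto_atTop_mono (fun k => by omega : ∀ k : ℕ, k ≤ 2 * k) tendsto_id
      refine mem_closure_of_tendsto (hy.comp h1) ?_
      filter_upwards [eventually_ge_atTop N] with k hk
      exact ⟨φ (2 * k), ⟨k, hk, rfl⟩, rfl⟩
    have c2 : y ∈ closure (a '' {m | ∃ k, N ≤ k ∧ m = φ (2 * k + 1)}) := by
      have h1 : Tendsto (fun k : ℕ => 2 * k + 1) atTop atTop :=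
        tendsto_atTop_mono (fun k => by omega : ∀ k : ℕ, k ≤ 2 * k + 1) tendsto_id
      refine mem_closure_of_tendsto (hy.comp h1) ?_
      filter_upwards [eventually_ge_atTop N] with k hk
      exact ⟨φ (2 * k + 1), ⟨k, hk, rfl⟩, rfl⟩
    refine Set.disjoint_left.1 (SDL_sep hK hO hd hN ?_ ?_ ?_) c1 c2
    · rintro m ⟨k, hk, rfl⟩
      have := hφ.le_apply (x := 2 * k)
      omega
    · rintro m ⟨k, hk, rfl⟩
      have := hφ.le_apply (x := 2 * k + 1)
      omega
    · rw [Set.disjoint_left]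
      rintro m ⟨k, hk, rfl⟩ ⟨k', hk', h⟩
      have := hφ.injective h
      omega

end Pool.Agent.HFP
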