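import Pool.Agent.HFP.St

/-!
# HFP, module SQC: consequences (sequential compactness, metrizability)
-/

set_option autoImplicit false

open Filter Topology Set

namespace Pool.Agent.HFP

theorem SQC_ev {X K : Type} [TopologicalSpace K] [T2Space K] (f : X → K) (hf : (range f).Finite)
    (q : Filter ℕ) (e : ℕ → X) (x : X) (h : Tendsto (fun n => f (e n)) q (𝓝 (f x))) :
    ∀ᶠ n in q, f (e n) = f x := by
  have h1 : IsOpen (range f \ {f x})ᶜ := (hf.subset diff_subset).isClosed.isOpen_compl
  have h2 : f x ∈ (range f \ {f x})ᶜ := fun h => h.2 rfl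
  filter_upwards [h.eventually (h1.mem_nhds h2)] with n hn
  by_contra hne
  exact hn ⟨⟨e n, rfl⟩, hne⟩

theorem thm_SQC : St_CVG → St_SQC := by
  intro hCVG X M K _ _ _ _ _ _ _ _ g f hg hf hinj hfin
  have key : ∀ e : ℕ → X, ∃ (φ : ℕ → ℕ) (x' : X), StrictMono φ ∧
      Tendsto (e ∘ φ) atTop (𝓝 x') := by
    intro e
    obtain ⟨x, _, hx⟩ := isCompact_univ.ultrafilter_le_nhds
      ((hyperfilter ℕ).map e) (by simp)
    have hx' : Tendsto e (hyperfilter ℕ : Filter ℕ) (𝓝 x) := hx
    refine hCVG X M K g f hg hf hinj (hyperfilter ℕ) e x (hyperfilter_le_cofinite) fun j => ?_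
    exact SQC_ev (f j) (hfin j) _ e x (((hf j).tendsto x).comp hx')
  refine ⟨⟨?_⟩, ?_, ?_⟩
  · intro e _
    obtain ⟨φ, x', h1, h2⟩ := key e
    exact ⟨x', mem_univ _, φ, h1, h2⟩
  · intro hX
    obtain ⟨φ, x', h1, h2⟩ := key (Infinite.natEmbedding X)
    exact ⟨_, (Infinite.natEmbedding X).injective.comp h1.injective, x', h2⟩
  · intro hM
    have hFin : ∀ i, Finite (range (f i)) := fun i => (hfin i).to_subtype
    have hD : ∀ i, DiscreteTopology (range (f i)) := fun i => inferInstance
    have hMi : ∀ i, TopologicalSpace.MetrizableSpace (range (f i)) := fun i => inferInstance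
    have hpi : TopologicalSpace.MetrizableSpace (∀ i, range (f i)) := by
      letI : ∀ i, MetricSpace (range (f i)) := fun i =>
        TopologicalSpace.metrizableSpaceMetric (range (f i))
      exact inferInstance
    have hprod : TopologicalSpace.MetrizableSpace (M × ∀ i, range (f i)) := inferInstance
    let F : X → M × ∀ i, range (f i) := fun x => (g x, fun i => ⟨f i x, x, rfl⟩)
    have hFc : Continuous F := by
      refine hg.prodMk (continuous_pi fun i => ?_)
      exact (hf i).subtype_mk _
    have hFi : Function.Injective F := by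
      intro x y hxy
      refine hinj x y (congrArg Prod.fst hxy) fun i => ?_
      exact congrArg Subtype.val (congrFun (congrArg Prod.snd hxy) i)
    exact (hFc.isClosedEmbedding hFi).isEmbedding.metrizableSpace

end Pool.Agent.HFP
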