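import Pool.Agent.HFP.St

/-!
# HFP, STP: the step of the construction
-/

set_option autoImplicit false

open Filter Topology Set

namespace Pool.Agent.HFP

theorem thm_STP : St_IND → St_DCW → St_OKS → St_NRK → St_STP := by
  classical
  intro hIND hDCW hOKS hNRK U u F J hI hJ
  obtain ⟨F1, hF1, R1, hR1, hI1, hdec⟩ := hDCW F J U hI hJ
  have hJ1 : (J \ R1).Infinite := by
    intro h
    refine hJ ((h.countable.union hR1).mono fun X hX => ?_)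
    by_cases h1 : X ∈ R1
    · exact Or.inr h1
    · exact Or.inl ⟨hX, h1⟩
  obtain ⟨X1, hX1, X2, hX2, hne⟩ := hJ1.nontrivial
  obtain ⟨F2, hF2, hI2, B, hB, hBu⟩ := hNRK F1 (J \ R1) X1 u hI1 hX1
  have hR : (R1 ∪ {X1, X2}).Countable := hR1.union (by simp)
  by_cases h : ∃ n, (U n)ᶜ ∈ F1
  · obtain ⟨n, hn⟩ := h
    refine ⟨F2, hF2.trans hF1, R1 ∪ {X1, X2}, hR, hIND.1 _ _ _ hI2 ?_, Or.inl ⟨n, hF2 hn⟩, B, hB,
      hBu⟩
    rintro X ⟨hX, hXR⟩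
    refine ⟨⟨hX, fun h1 => hXR (Or.inl h1)⟩, fun h1 => hXR (Or.inr ?_)⟩
    rw [mem_singleton_iff.1 h1]
    exact mem_insert _ _
  · have hU : ∀ n, U n ∈ F1 := fun n => (hdec n).resolve_right fun h1 => h ⟨n, h1⟩
    obtain ⟨V, hV, hI3⟩ := hOKS F2 ((J \ R1) \ {X1}) X2 U hI2
      ⟨hX2, fun h1 => hne (mem_singleton_iff.1 h1).symm⟩ fun n => hF2 (hU n)
    refine ⟨_, inf_le_left.trans (hF2.trans hF1), R1 ∪ {X1, X2}, hR, hIND.1 _ _ _ hI3 ?_,
      Or.inr ⟨V, fun Y => ?_, hV⟩, B, mem_inf_of_left hB, hBu⟩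
    · rintro X ⟨hX, hXR⟩
      refine ⟨⟨⟨hX, fun h1 => hXR (Or.inl h1)⟩, fun h1 => hXR (Or.inr ?_)⟩, fun h1 =>
        hXR (Or.inr ?_)⟩
      · rw [mem_singleton_iff.1 h1]
        exact mem_insert _ _
      · rw [mem_singleton_iff.1 h1]
        exact mem_insert_of_mem _ rfl
    · exact mem_inf_of_right (mem_iInf_of_mem Y (mem_principal_self _))

end Pool.Agent.HFP
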