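import Pool.Agent.HFP.St

set_option autoImplicit false

open Filter Topology Set

namespace Pool.Agent.HFP

private theorem THN_ne {K : Type} {a : ℕ → K} (h : EI a) (z : K) :
    ∀ᶠ n in (hyperfilter ℕ : Filter ℕ), a n ≠ z := by
  obtain ⟨N, hN⟩ := h
  have h1 : {n | a n = z}.Finite := by
    by_cases hex : ∃ m, N ≤ m ∧ a m = z
    · obtain ⟨m, hm, hmz⟩ := hex
      refine ((Set.finite_Iic N).union (Set.finite_singleton m)).subset ?_
      intro n hn
      by_cases hnN : n ≤ N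
      · exact Or.inl hnN
      · right
        exact hN n m (by omega) hm (hn.trans hmz.symm)
    · push Not at hex
      refine (Set.finite_Iic N).subset ?_
      intro n hn
      by_contra hc
      rw [Set.mem_Iic, not_le] at hc
      exact hex n hc.le hn
  exact hyperfilter_le_cofinite (Filter.mem_cofinite.2 (by
    refine h1.subset ?_
    intro n hn
    by_contra hc
    exact hn hc))

private def THN_St (K : ℕ → Type) [∀ i, TopologicalSpace (K i)] (z : ∀ i, K i) : Type :=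
  {s : ℕ × (∀ i, Set (K i)) // ∀ i, IsOpen (s.2 i) ∧ z i ∈ s.2 i}

private theorem THN_step (K : ℕ → Type) [∀ i, TopologicalSpace (K i)] [∀ i, T2Space (K i)]
    (a : ∀ i, ℕ → K i) (A : Set ℕ) (z : ∀ i, K i)
    (hz : ∀ i, Tendsto (a i) (hyperfilter ℕ : Filter ℕ) (𝓝 (z i)))
    (hne : ∀ i ∈ A, ∀ᶠ n in (hyperfilter ℕ : Filter ℕ), a i n ≠ z i) (k : ℕ) (s : THN_St K z) :
    ∃ (s' : THN_St K z) (O : ∀ i, Set (K i)), s.1.1 < s'.1.1 ∧ (∀ i, IsOpen (O i)) ∧
      (∀ i, O i ⊆ s.1.2 i) ∧ (∀ i, s'.1.2 i ⊆ s.1.2 i) ∧ (∀ i, Disjoint (O i) (s'.1.2 i)) ∧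
      (∀ i, i ≤ k → i ∈ A → a i s'.1.1 ∈ O i) := by
  have h1 : ∀ᶠ n in (hyperfilter ℕ : Filter ℕ), ∀ i ∈ Finset.range (k + 1),
      (i ∈ A → a i n ∈ s.1.2 i ∧ a i n ≠ z i) := by
    rw [Filter.eventually_all_finset]
    intro i _
    by_cases hi : i ∈ A
    · have h2 : ∀ᶠ n in (hyperfilter ℕ : Filter ℕ), a i n ∈ s.1.2 i :=
        hz i ((s.2 i).1.mem_nhds (s.2 i).2)
      filter_upwards [h2, hne i hi] with n e1 e2 _ using ⟨e1, e2⟩
    · exact Eventually.of_forall fun n h => absurd h hi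
  have h2 : ∀ᶠ n in (hyperfilter ℕ : Filter ℕ), s.1.1 < n :=
    hyperfilter_le_cofinite (Filter.mem_cofinite.2 (by
      refine (Set.finite_Iic s.1.1).subset ?_
      intro n hn
      by_contra hc
      rw [Set.mem_Iic, not_le] at hc
      exact hn hc))
  obtain ⟨n, hn1, hn2⟩ := (h1.and h2).exists
  have h3 : ∀ i, ∃ O W' : Set (K i), IsOpen O ∧ IsOpen W' ∧ z i ∈ W' ∧ O ⊆ s.1.2 i ∧
      W' ⊆ s.1.2 i ∧ Disjoint O W' ∧ (i ≤ k → i ∈ A → a i n ∈ O) := by
    intro i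
    by_cases hi : i ≤ k ∧ i ∈ A
    · obtain ⟨e1, e2⟩ := hn1 i (Finset.mem_range.2 (by omega)) hi.2
      obtain ⟨U, V, hU, hV, haU, hzV, hUV⟩ := t2_separation e2
      refine ⟨U ∩ s.1.2 i, V ∩ s.1.2 i, hU.inter (s.2 i).1, hV.inter (s.2 i).1,
        ⟨hzV, (s.2 i).2⟩, Set.inter_subset_right, Set.inter_subset_right,
        hUV.mono Set.inter_subset_left Set.inter_subset_left, fun _ _ => ⟨haU, e1⟩⟩
    · refine ⟨∅, s.1.2 i, isOpen_empty, (s.2 i).1, (s.2 i).2, Set.empty_subset _, le_rfl,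
        Set.empty_disjoint _, fun e1 e2 => absurd ⟨e1, e2⟩ hi⟩
  choose O W' g1 g2 g3 g4 g5 g6 g7 using h3
  exact ⟨⟨(n, W'), fun i => ⟨g2 i, g3 i⟩⟩, O, hn2, g1, g4, g5, g6, g7⟩

theorem thm_THN : St_THN := by
  intro K _ _ _ a A hA
  have hlim : ∀ i, ∃ x, Tendsto (a i) (hyperfilter ℕ : Filter ℕ) (𝓝 x) := by
    intro i
    obtain ⟨x, -, hx⟩ := isCompact_univ.ultrafilter_le_nhds ((hyperfilter ℕ).map (a i)) (by simp)
    exact ⟨x, hx⟩
  choose z hz using hlim
  have hne : ∀ i ∈ A, ∀ᶠ n in (hyperfilter ℕ : Filter ℕ), a i n ≠ z i :=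
    fun i hi => THN_ne (hA i hi) (z i)
  choose nxt O g1 g2 g3 g4 g5 g6 using THN_step K a A z hz hne
  let S : ℕ → THN_St K z := fun k => Nat.rec ⟨(0, fun _ => univ), fun i => ⟨isOpen_univ, mem_univ _⟩⟩
    (fun k s => nxt k s) k
  have hS : ∀ k, S (k + 1) = nxt k (S k) := fun k => rfl
  have hW : ∀ i m n, m ≤ n → (S n).1.2 i ⊆ (S m).1.2 i := by
    intro i m n hmn
    induction n, hmn using Nat.le_induction with
    | base => exact le_rfl
    | succ n _ ih =>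
      rw [hS]
      exact (g4 n (S n) i).trans ih
  refine ⟨fun k => (S (k + 1)).1.1, strictMono_nat_of_lt_succ fun k => ?_, ?_⟩
  · rw [hS (k + 1)]
    exact g1 (k + 1) (S (k + 1))
  · intro i hi
    refine ⟨fun m => O m (S m) i, fun m => g2 m (S m) i, ?_, ?_⟩
    · have h1 : ∀ m n, m < n → Disjoint (O m (S m) i) (O n (S n) i) := by
        intro m n hmn
        have h2 := g5 m (S m) i
        rw [← hS] at h2
        exact h2.mono le_rfl ((g3 n (S n) i).trans (hW i (m + 1) n hmn))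
      intro m n hmn
      rcases Nat.lt_or_gt_of_ne hmn with h | h
      · exact h1 m n h
      · exact (h1 n m h).symm
    · filter_upwards [eventually_ge_atTop i] with m hm
      have h2 := g6 m (S m) i hm hi
      rw [← hS] at h2
      exact h2

end Pool.Agent.HFP
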