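import Pool.Agent.HFP.St

/-!
# HFP, TRN: a transfinite construction
-/

set_option autoImplicit false

open Filter Topology Set

namespace Pool.Agent.HFP

/-- the filter after the tasks in `I` -/
private def TRN_F {S ρ τ : Type} (F0 : Filter S) (G : τ → Filter S × Set ρ) (I : Set τ) : Filter S :=
  sInf (insert F0 {F | ∃ s ∈ I, F = (G s).1})

/-- the rows used by the tasks in `I` -/
private def TRN_U {S ρ τ : Type} (G : τ → Filter S × Set ρ) (I : Set τ) : Set ρ :=
  {x | ∃ s ∈ I, x ∈ (G s).2}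

private lemma TRN_F_le {S ρ τ : Type} (F0 : Filter S) (G : τ → Filter S × Set ρ) (I : Set τ) :
    TRN_F F0 G I ≤ F0 := sInf_le (mem_insert _ _)

private lemma TRN_F_le' {S ρ τ : Type} (F0 : Filter S) (G : τ → Filter S × Set ρ) (I : Set τ)
    {s : τ} (hs : s ∈ I) : TRN_F F0 G I ≤ (G s).1 :=
  sInf_le (mem_insert_of_mem _ ⟨s, hs, rfl⟩)

private lemma TRN_card {S ρ τ : Type} (G : τ → Filter S × Set ρ) (hG : ∀ s, (G s).2.Countable)
    (I : Set τ) : Cardinal.mk (TRN_U G I) ≤ Cardinal.mk I * Cardinal.aleph0 := by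
  have e : TRN_U G I = ⋃ s : I, (G s).2 := by
    ext x
    simp [TRN_U]
  rw [e]
  refine (Cardinal.mk_iUnion_le_sum_mk).trans ?_
  rw [← Cardinal.sum_const']
  exact Cardinal.sum_le_sum _ _ fun s => Cardinal.le_aleph0_iff_set_countable.2 (hG s)

private lemma TRN_unc {S ρ τ : Type} (G : τ → Filter S × Set ρ) (hG : ∀ s, (G s).2.Countable)
    (I : Set τ) (J0 : Set ρ) (hJ : ¬ J0.Countable) (hI : Cardinal.mk I < Cardinal.mk J0) :
    ¬ (J0 \ TRN_U G I).Countable := by
  intro hc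
  have hJ' : Cardinal.aleph0 < Cardinal.mk J0 := by
    rw [← not_le, Cardinal.le_aleph0_iff_set_countable]
    exact hJ
  have h1 : Cardinal.mk (TRN_U G I) < Cardinal.mk J0 :=
    (TRN_card G hG I).trans_lt (Cardinal.mul_lt_of_lt hJ'.le hI hJ')
  have h2 : Cardinal.mk (J0 \ TRN_U G I : Set ρ) < Cardinal.mk J0 :=
    (Cardinal.le_aleph0_iff_set_countable.2 hc).trans_lt hJ'
  have h3 : J0 ⊆ (J0 \ TRN_U G I) ∪ TRN_U G I := fun x hx => by
    by_cases h : x ∈ TRN_U G I
    · exact Or.inr h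
    · exact Or.inl ⟨hx, h⟩
  have h4 := (Cardinal.mk_le_mk_of_subset h3).trans (Cardinal.mk_union_le _ _)
  exact absurd (h4.trans_lt (Cardinal.add_lt_of_lt hJ'.le h2 h1)) (lt_irrefl _)

theorem thm_TRN : St_TRN := by
  intro S ρ τ P Dn F0 J0 ha hb hc hd h0 hJ hτ
  have hstep : ∀ (t : τ) (F : Filter S) (J : Set ρ), ∃ z : Filter S × Set ρ, z.2.Countable ∧
      (P F J → ¬ J.Countable → z.1 ≤ F ∧ P z.1 (J \ z.2) ∧ Dn t z.1) := by
    intro t F J
    by_cases h : P F J ∧ ¬ J.Countable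
    · obtain ⟨F', hF', R, hR, hP, hD⟩ := hd t F J h.1 h.2
      exact ⟨(F', R), hR, fun _ _ => ⟨hF', hP, hD⟩⟩
    · exact ⟨(F, ∅), countable_empty, fun h1 h2 => absurd ⟨h1, h2⟩ h⟩
  choose step hs1 hs2 using hstep
  obtain ⟨r, wo, hr⟩ := Cardinal.exists_ord_eq τ
  -- the recursion
  obtain ⟨G, hG⟩ : ∃ G : τ → Filter S × Set ρ, ∀ t, G t =
      step t (TRN_F F0 G {s | r s t}) (J0 \ TRN_U G {s | r s t}) := by
    refine ⟨wo.wf.fix fun t ih => step t
      (sInf (insert F0 {F | ∃ (s : τ) (h : r s t), F = (ih s h).1}))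
      (J0 \ {x | ∃ (s : τ) (h : r s t), x ∈ (ih s h).2}), fun t => ?_⟩
    rw [wo.wf.fix_eq]
    congr 1
    · unfold TRN_F
      congr 2
      ext F
      simp only [mem_ofPred_eq, exists_prop]
    · congr 1
      ext x
      simp only [TRN_U, mem_ofPred_eq, exists_prop]
  have hGc : ∀ s, (G s).2.Countable := fun s => by
    rw [hG s]
    exact hs1 _ _ _
  have hlt : ∀ t, Cardinal.mk {s | r s t} < Cardinal.mk J0 := fun t => by
    have h1 := Cardinal.card_typein_lt t hr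
    rw [Ordinal.card_typein] at h1
    exact lt_of_lt_of_le h1 hτ
  have hgood : ∀ t, P (TRN_F F0 G {s | r s t}) (J0 \ TRN_U G {s | r s t}) →
      (G t).1 ≤ TRN_F F0 G {s | r s t} ∧ P (G t).1 ((J0 \ TRN_U G {s | r s t}) \ (G t).2) ∧
        Dn t (G t).1 := fun t ht => by
    have h1 := hs2 t _ _ ht (TRN_unc G hGc _ J0 hJ (hlt t))
    rw [← hG t] at h1
    exact h1
  -- initial segments
  have hA : ∀ I : Set τ, (∀ s ∈ I, ∀ s', r s' s → s' ∈ I) →
      (∀ s ∈ I, P (TRN_F F0 G {s' | r s' s}) (J0 \ TRN_U G {s' | r s' s})) →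
      P (TRN_F F0 G I) (J0 \ TRN_U G I) := by
    intro I hI hgI
    refine hb _ _ (insert_nonempty _ _) ?_ ?_
    · have hF0 : ∀ s ∈ I, (G s).1 ≤ F0 := fun s hs =>
        (hgood s (hgI s hs)).1.trans (TRN_F_le _ _ _)
      have hss : ∀ s s', s' ∈ I → r s s' → (G s').1 ≤ (G s).1 := fun s s' hs' h =>
        (hgood s' (hgI s' hs')).1.trans (TRN_F_le' _ _ _ h)
      rintro F hF F' hF' hne
      rcases hF with rfl | ⟨s, hs, rfl⟩
      · rcases hF' with rfl | ⟨s', hs', rfl⟩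
        · exact absurd rfl hne
        · exact Or.inr (hF0 s' hs')
      · rcases hF' with rfl | ⟨s', hs', rfl⟩
        · exact Or.inl (hF0 s hs)
        · rcases trichotomous_of r s s' with h | h | h
          · exact Or.inr (hss s s' hs' h)
          · subst h
            exact absurd rfl hne
          · exact Or.inl (hss s' s hs h)
    · rintro F (rfl | ⟨s, hs, rfl⟩)
      · exact ha _ _ _ h0 sdiff_subset
      · refine ha _ _ _ (hgood s (hgI s hs)).2.1 ?_
        rintro x ⟨hx, hx'⟩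
        refine ⟨⟨hx, ?_⟩, ?_⟩
        · rintro ⟨s', hs', hx2⟩
          exact hx' ⟨s', hI s hs s' hs', hx2⟩
        · intro hx2
          exact hx' ⟨s, hs, hx2⟩
  have hall : ∀ t, P (TRN_F F0 G {s | r s t}) (J0 \ TRN_U G {s | r s t}) := by
    intro t
    induction t using wo.wf.induction with
    | _ t ih =>
      refine hA _ (fun s hs s' hs' => ?_) (fun s hs => ih s hs)
      exact (inferInstance : IsTrans τ r).trans _ _ _ hs' hs
  refine ⟨TRN_F F0 G univ, TRN_F_le _ _ _, TRN_U G univ, ?_, hA univ (fun _ _ _ _ => mem_univ _)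
    (fun s _ => hall s), fun t => hc t _ _ (TRN_F_le' _ _ _ (mem_univ t)) (hgood t (hall t)).2.2⟩
  refine (TRN_card G hGc univ).trans ?_
  rw [Cardinal.mk_univ]
  refine (Cardinal.mul_le_max _ _).trans ?_
  simp

end Pool.Agent.HFP
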