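import Pool.Agent.HFP.St

/-!
# HFP [TYP]: a maximal type
-/

set_option autoImplicit false

open Filter Topology Set

namespace Pool.Agent.HFP

open Classical in
/-- the increasing finite sets -/
private noncomputable def TYP_A {X : Type} {K : ℕ → Type} (f : ∀ i, X → K i) (i0 : ℕ) :
    ℕ → Set ℕ
  | 0 => {i0}
  | k + 1 => if Typ f (insert k (TYP_A f i0 k)) then insert k (TYP_A f i0 k) else TYP_A f i0 k

private theorem TYP_mono {X : Type} {K : ℕ → Type} (f : ∀ i, X → K i) {A B : Set ℕ}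
    (h : B ⊆ A) (hA : Typ f A) : Typ f B := by
  obtain ⟨d, hd⟩ := hA
  exact ⟨d, fun i hi => hd i (h hi)⟩

private theorem TYP_step {X : Type} {K : ℕ → Type} (f : ∀ i, X → K i) (i0 k : ℕ) :
    TYP_A f i0 k ⊆ TYP_A f i0 (k + 1) := by
  classical
  show TYP_A f i0 k ⊆
    if Typ f (insert k (TYP_A f i0 k)) then insert k (TYP_A f i0 k) else TYP_A f i0 k
  split
  · exact Set.subset_insert _ _
  · exact le_refl _

private theorem TYP_le {X : Type} {K : ℕ → Type} (f : ∀ i, X → K i) (i0 : ℕ) :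
    Monotone (TYP_A f i0) := monotone_nat_of_le_succ (TYP_step f i0)

private theorem TYP_fin {X : Type} {K : ℕ → Type} (f : ∀ i, X → K i) (i0 : ℕ)
    (h0 : Typ f {i0}) (k : ℕ) : (TYP_A f i0 k).Finite ∧ Typ f (TYP_A f i0 k) := by
  classical
  induction k with
  | zero => exact ⟨Set.finite_singleton i0, h0⟩
  | succ k ih =>
    show Set.Finite (if Typ f (insert k (TYP_A f i0 k)) then insert k (TYP_A f i0 k)
        else TYP_A f i0 k) ∧
      Typ f (if Typ f (insert k (TYP_A f i0 k)) then insert k (TYP_A f i0 k)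
        else TYP_A f i0 k)
    split
    · next h => exact ⟨ih.1.insert k, h⟩
    · exact ih

private theorem TYP_ev {Y : Type} (a : ℕ → Y) (h : EI a) (y : Y) : ∀ᶠ n in atTop, a n ≠ y := by
  obtain ⟨N, hN⟩ := h
  by_cases hy : ∃ n, N ≤ n ∧ a n = y
  · obtain ⟨n₁, hn₁, h1⟩ := hy
    filter_upwards [eventually_gt_atTop n₁] with n hn hny
    have := hN n n₁ (hn₁.trans hn.le) hn₁ (hny.trans h1.symm)
    omega
  · filter_upwards [eventually_ge_atTop N] with n hn hny
    exact hy ⟨n, hn, hny⟩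

theorem thm_TYP : St_TYP := by
  intro X K f i0 h0
  refine ⟨⋃ k, TYP_A f i0 k, Set.mem_iUnion.2 ⟨0, Set.mem_singleton i0⟩, ?_, ?_⟩
  · -- the diagonal sequence
    choose d hd using fun k => (TYP_fin f i0 h0 k).2
    obtain ⟨g, -, hg⟩ := exists_seq_of_forall_finset_exists (α := ℕ × X) (fun _ => True)
      (fun p q => p.1 < q.1 ∧ ∀ i ∈ TYP_A f i0 q.1, f i q.2 ≠ f i p.2) (fun s _ => by
        obtain ⟨k, hk⟩ : ∃ k : ℕ, ∀ x ∈ s, x.1 < k := by
          refine ⟨s.sup Prod.fst + 1, fun x hx => ?_⟩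
          have := Finset.le_sup (f := Prod.fst) hx
          omega
        have h1 : ∀ᶠ n in atTop, ∀ x ∈ s, ∀ i ∈ TYP_A f i0 k, f i (d k n) ≠ f i x.2 := by
          rw [Filter.eventually_all_finset]
          intro x _
          rw [Filter.eventually_all_finite (TYP_fin f i0 h0 k).1]
          intro i hi
          exact TYP_ev _ (hd k i hi) _
        obtain ⟨n, hn⟩ := h1.exists
        exact ⟨(k, d k n), trivial, fun x hx => ⟨hk x hx, fun i hi => hn x hx i hi⟩⟩)
    have hmono : StrictMono fun n => (g n).1 := fun m n hmn => (hg m n hmn).1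
    refine ⟨fun n => (g n).2, fun i hi => ?_⟩
    obtain ⟨k0, hk0⟩ := Set.mem_iUnion.1 hi
    have key : ∀ m n, k0 ≤ n → m < n → f i (g n).2 ≠ f i (g m).2 := by
      intro m n hn hmn
      exact (hg m n hmn).2 i (TYP_le f i0 (hn.trans (hmono.id_le n)) hk0)
    refine ⟨k0, fun m n hm hn he => ?_⟩
    rcases lt_trichotomy m n with h | h | h
    · exact absurd he.symm (key m n hn h)
    · exact h
    · exact absurd he (key n m hm h)
  · intro j hj
    have h1 : Typ f (insert j (TYP_A f i0 j)) :=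
      TYP_mono f (Set.insert_subset_insert (Set.subset_iUnion (TYP_A f i0) j)) hj
    refine Set.mem_iUnion.2 ⟨j + 1, ?_⟩
    classical
    show j ∈ if Typ f (insert j (TYP_A f i0 j)) then insert j (TYP_A f i0 j) else TYP_A f i0 j
    rw [if_pos h1]
    exact Set.mem_insert _ _

end Pool.Agent.HFP
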