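import Pool.Agent.HFP.St

/-!
# HFP, UFL: the filter
-/

set_option autoImplicit false

open Filter Topology Set

namespace Pool.Agent.HFP

private lemma UFL_card (hM : St_MAT) :
    Cardinal.mk ((ℕ → Set SS) × (ℕ → SS)) ≤ Cardinal.mk (univ : Set (Set ℕ)) := by
  have hS : Cardinal.mk SS ≤ Cardinal.aleph0 := by
    have := hM.2.2.2.1
    exact Cardinal.mk_le_aleph0
  rw [Cardinal.mk_univ, Cardinal.mk_set_nat]
  have h1 : Cardinal.mk (ℕ → Set SS) ≤ Cardinal.continuum := by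
    rw [← Cardinal.power_def, Cardinal.mk_nat, Cardinal.mk_set]
    refine (Cardinal.power_le_power_right (b := Cardinal.continuum) ?_).trans
      Cardinal.continuum_power_aleph0.le
    rw [← Cardinal.two_power_aleph0]
    exact Cardinal.power_le_power_left two_ne_zero hS
  have h2 : Cardinal.mk (ℕ → SS) ≤ Cardinal.continuum := by
    rw [← Cardinal.power_def, Cardinal.mk_nat, ← Cardinal.aleph0_power_aleph0]
    exact Cardinal.power_le_power_right hS
  rw [← Cardinal.mul_def]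
  exact (mul_le_mul' h1 h2).trans Cardinal.continuum_mul_self.le

theorem thm_UFL : St_MAT → St_TRN → St_IND → St_STP → St_UFL := by
  intro hM hTRN hIND hSTP q
  have hunc : ¬ (univ : Set (Set ℕ)).Countable := by
    rw [← Cardinal.le_aleph0_iff_set_countable, Cardinal.mk_univ, Cardinal.mk_set_nat, not_le]
    exact Cardinal.aleph0_lt_continuum
  obtain ⟨F, hF, R, -, hP, hD⟩ := hTRN SS (Set ℕ) ((ℕ → Set SS) × (ℕ → SS)) Ind
    (fun t F => Done t.1 (q.map t.2) F) cofinite univ hIND.1 hIND.2.1 (fun t F F' h hd => by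
      refine ⟨?_, ?_⟩
      · rcases hd.1 with ⟨n, hn⟩ | ⟨V, hV, hL⟩
        · exact Or.inl ⟨n, h hn⟩
        · exact Or.inr ⟨V, fun Y => h (hV Y), hL⟩
      · obtain ⟨B, hB, hB'⟩ := hd.2
        exact ⟨B, h hB, hB'⟩)
    (fun t F J hI hJ => hSTP t.1 (q.map t.2) F J hI hJ) hIND.2.2.2 hunc (UFL_card hM)
  refine ⟨F, ?_, hF, fun U g => hD (U, g)⟩
  refine ⟨fun h => ?_⟩
  have h1 : (∅ : Set SS) ∈ F := by
    rw [h]
    exact mem_bot
  obtain ⟨s, hs, -⟩ := hP.2 ∅ (fun _ => 0) ⟨by simp, by simp⟩ ∅ h1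
  exact hs

end Pool.Agent.HFP
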