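import Pool.Agent.HFP.St

set_option autoImplicit false

open Filter Topology Set

namespace Pool.Agent.HFP

private theorem WPP_map_le {α β : Type} (e : α ≃ β) (p : Ultrafilter α) :
    ((p.map e : Ultrafilter β) : Filter β) ≤ cofinite ↔ (p : Filter α) ≤ cofinite := by
  constructor
  · intro h s hs
    have h1 : (e '' s)ᶜ.Finite := by
      rw [← Set.image_compl_eq e.bijective]
      exact (Filter.mem_cofinite.1 hs).image e
    have h2 : e '' s ∈ p.map e := h (Filter.mem_cofinite.2 h1)
    rw [Ultrafilter.mem_map, Set.preimage_image_eq _ e.injective] at h2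
    exact h2
  · intro h s hs
    have h1 : (e ⁻¹' s)ᶜ.Finite := by
      rw [← Set.preimage_compl]
      exact (Filter.mem_cofinite.1 hs).preimage e.injective.injOn
    have h2 : e ⁻¹' s ∈ p := h (Filter.mem_cofinite.2 h1)
    exact h2

private theorem WPP_uncount : ¬ (univ : Set (Set ℕ)).Countable := by
  intro h2
  have h3 : Countable (Set ℕ) := Set.countable_univ_iff.1 h2
  obtain ⟨F, hF⟩ := h3.exists_injective_nat
  exact Function.cantor_injective F hF

theorem thm_WPP : St_MAT → St_UFL → St_WPP := by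
  intro hMAT hUFL q
  obtain ⟨F, hne, hcof, hdone⟩ := hUFL q
  obtain ⟨-, -, -, hcnt, hinf⟩ := hMAT
  have := hcnt
  have := hinf
  have := hne
  obtain ⟨b⟩ := nonempty_equiv_of_countable (α := SS) (β := ℕ)
  set p0 : Ultrafilter SS := Ultrafilter.of F with hp0
  have hp0F : (p0 : Filter SS) ≤ F := Ultrafilter.of_le F
  have hp0c : (p0 : Filter SS) ≤ cofinite := hp0F.trans hcof
  have key : ∀ r : ℕ → Ultrafilter SS, (∀ n, (r n : Filter SS) ≤ cofinite) → (∀ n, r n ≠ p0) →
      ∃ V ∈ p0, ∀ n, V ∉ r n := by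
    intro r hr hrp
    have h1 : ∀ n, ∃ U : Set SS, U ∈ p0 ∧ U ∉ r n := by
      intro n
      by_contra hc
      push Not at hc
      exact hrp n (Ultrafilter.eq_of_le (fun s hs => hc s hs))
    choose U hU1 hU2 using h1
    obtain ⟨hD, -⟩ := hdone U (b.symm)
    rcases hD with ⟨n, hn⟩ | ⟨V, hV, hL⟩
    · exfalso
      have h2 : (U n)ᶜ ∈ p0 := hp0F hn
      exact (Ultrafilter.compl_notMem_iff.2 (hU1 n)) h2
    · have hfin : ∀ n, {Y | V Y ∈ r n}.Finite := by
        intro n
        by_contra hc
        obtain ⟨T, hT1, hT2⟩ := (show {Y | V Y ∈ r n}.Infinite from hc).exists_subset_card_eq (n + 1)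
        have h2 := hL n T (by omega)
        have h3 : (⋂ Y ∈ T, V Y) ∈ r n := by
          rw [← Ultrafilter.mem_coe, Filter.biInter_finset_mem]
          intro Y hY
          exact hT1 hY
        have h4 : {s | (∀ Y ∈ T, s ∈ V Y) ∧ ∃ m ≤ n + 1, s ∉ U m}ᶜ ∈ r n :=
          hr n (Filter.mem_cofinite.2 (by rw [compl_compl]; exact h2))
        apply hU2 n
        refine Filter.mem_of_superset (Filter.inter_mem h3 h4) ?_
        rintro s ⟨hs1, hs2⟩
        by_contra hc2
        apply hs2
        refine ⟨fun Y hY => ?_, n, by omega, hc2⟩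
        exact Set.mem_iInter₂.1 hs1 Y hY
      have hex : ∃ Y : Set ℕ, ∀ n, V Y ∉ r n := by
        by_contra hc
        push Not at hc
        apply WPP_uncount
        have h2 : (univ : Set (Set ℕ)) = ⋃ n, {Y | V Y ∈ r n} := by
          ext Y
          simp only [Set.mem_univ, Set.mem_iUnion, Set.mem_ofPred_eq, true_iff]
          exact hc Y
        rw [h2]
        exact Set.countable_iUnion fun n => (hfin n).countable
      obtain ⟨Y, hY⟩ := hex
      exact ⟨V Y, hp0F (hV Y), hY⟩
  have hNR : ∀ g : ℕ → SS, q.map g ≠ p0 := by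
    intro g heq
    obtain ⟨-, B, hB, hB2⟩ := hdone (fun _ => univ) g
    rw [heq] at hB2
    exact hB2 (hp0F hB)
  refine ⟨p0.map b, ⟨(WPP_map_le b p0).2 hp0c, ?_⟩, ?_⟩
  · intro r hr hrp
    have h1 : ∀ n, (((r n).map b.symm : Ultrafilter SS) : Filter SS) ≤ cofinite :=
      fun n => (WPP_map_le b.symm (r n)).2 (hr n)
    have h2 : ∀ n, (r n).map b.symm ≠ p0 := by
      intro n h
      apply hrp n
      rw [← h, Ultrafilter.map_map]
      have : (b ∘ b.symm : ℕ → ℕ) = id := by funext k; simp
      rw [this, Ultrafilter.map_id]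
    obtain ⟨V, hV1, hV2⟩ := key (fun n => (r n).map b.symm) h1 h2
    refine ⟨b '' V, ?_, fun n hn => ?_⟩
    · rw [Ultrafilter.mem_map, Set.preimage_image_eq _ b.injective]
      exact hV1
    · apply hV2 n
      rw [Ultrafilter.mem_map]
      have : b.symm ⁻¹' V = b '' V := (Equiv.image_eq_preimage_symm b V).symm
      rw [this]
      exact hn
  · intro g h
    apply hNR (b.symm ∘ g)
    rw [← Ultrafilter.map_map, h, Ultrafilter.map_map]
    have : (b.symm ∘ b : SS → SS) = id := by funext k; simp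
    rw [this, Ultrafilter.map_id]

end Pool.Agent.HFP
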