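import Pool.Agent.HFP.St

/-!
# HFP: module ZSQ

The diagonal sequence of a larger type.
-/

set_option autoImplicit false

open Filter Topology Set

namespace Pool.Agent.HFP

theorem thm_ZSQ : St_ZSQ := by
  intro X K f q A j x e h1 h2 h3
  classical
  obtain ⟨g, hP, hr⟩ := exists_seq_of_forall_finset_exists
    (fun z : ℕ × X => ∀ i, i ≤ z.1 → i ∈ A → f i z.2 = f i (x z.1))
    (fun z z' : ℕ × X => z.1 < z'.1 ∧ f j z'.2 ≠ f j z.2) (by
      intro s _
      set k := s.sup Prod.fst + 1 with hk
      have e1 : ∀ᶠ n in (q : Filter ℕ), ∀ i ∈ Finset.range (k + 1), i ∈ A →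
          f i (e k n) = f i (x k) := by
        rw [Filter.eventually_all_finset]
        intro i _
        by_cases hi : i ∈ A
        · filter_upwards [h1 i hi k] with n hn
          exact fun _ => hn
        · exact Filter.Eventually.of_forall fun n hi' => absurd hi' hi
      have e2 : ∀ᶠ n in (q : Filter ℕ), ∀ z ∈ s, f j (e k n) ≠ f j z.2 := by
        rw [Filter.eventually_all_finset]
        intro z _
        exact Ultrafilter.eventually_not.2 (h3 k (f j z.2))
      obtain ⟨n, n1, n2⟩ := (e1.and e2).exists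
      refine ⟨(k, e k n), ?_, ?_⟩
      · intro i hi hiA
        exact n1 i (Finset.mem_range.2 (Nat.lt_succ_of_le hi)) hiA
      · intro z hz
        refine ⟨?_, n2 z hz⟩
        show z.1 < k
        have h4 : z.1 ≤ s.sup Prod.fst := Finset.le_sup (f := Prod.fst) hz
        omega)
  have hmono : StrictMono fun n => (g n).1 := fun m n hmn => (hr m n hmn).1
  refine ⟨fun n => (g n).2, ?_⟩
  intro i hi
  rcases hi with hi | hi
  · rw [hi]
    refine ⟨0, fun m n _ _ hmn => ?_⟩
    by_contra hne
    rcases lt_or_gt_of_ne hne with h | h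
    · exact (hr m n h).2 hmn.symm
    · exact (hr n m h).2 hmn
  · refine ⟨i, fun m n hm hn hmn => ?_⟩
    have g1 : m ≤ (g m).1 := hmono.le_apply
    have g2 : n ≤ (g n).1 := hmono.le_apply
    have h4 : f i (g m).2 = f i (g n).2 := hmn
    rw [hP m i (hm.trans g1) hi, hP n i (hn.trans g2) hi] at h4
    by_contra hne
    exact h2 i hi _ _ (fun h => hne (hmono.injective h)) h4

end Pool.Agent.HFP
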