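import Pool.Agent.HFP.FSC
import Pool.Agent.HFP.SDL
import Pool.Agent.HFP.KUN
import Pool.Agent.HFP.THN
import Pool.Agent.HFP.TYP
import Pool.Agent.HFP.CVG
import Pool.Agent.HFP.ZSQ
import Pool.Agent.HFP.MAT
import Pool.Agent.HFP.TRN
import Pool.Agent.HFP.IND
import Pool.Agent.HFP.DEC
import Pool.Agent.HFP.DCW
import Pool.Agent.HFP.OKS
import Pool.Agent.HFP.NRK
import Pool.Agent.HFP.STP
import Pool.Agent.HFP.UFL
import Pool.Agent.HFP.WPP
import Pool.Agent.HFP.FAM
import Pool.Agent.HFP.MAI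
import Pool.Agent.HFP.SQC

/-!
# HFP: the theorem
-/

set_option autoImplicit false

open Filter Topology Set

namespace Pool.Agent.HFP

theorem all_IND : St_IND := thm_IND thm_MAT

theorem all_STP : St_STP :=
  thm_STP all_IND (thm_DCW thm_TRN all_IND (thm_DEC all_IND)) (thm_OKS thm_MAT all_IND)
    (thm_NRK thm_MAT all_IND)

/-- Kunen: weak P-points not below a given ultrafilter. -/
theorem all_WPP : St_WPP := thm_WPP thm_MAT (thm_UFL thm_MAT thm_TRN all_IND all_STP)

theorem all_MAI : St_MAI :=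
  thm_MAI thm_SDL thm_KUN thm_THN thm_TYP thm_CVG thm_ZSQ (thm_FAM all_WPP)

theorem all_SQC : St_SQC := thm_SQC thm_CVG

end Pool.Agent.HFP
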