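import Mathlib

/-!
# HFP: homogeneous compacta in countable products of compact F-spaces (MP_2385c0_gt), definitions

Architect helper80.  Aim (in ZFC): if a homogeneous compactum `X` embeds in the product of a
sequentially compact space and countably many compact F-spaces, then its projections to the F-spaces
are finite; so `X` is sequentially compact and, if infinite, has a nontrivial convergent sequence.
-/

set_option autoImplicit false

open Filter Topology Set

namespace Pool.Agent.HFP

/-! ### Topology -/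

/-- Separated countable sets have disjoint closures. -/
def SepC (K : Type) [TopologicalSpace K] : Prop :=
  ∀ A B : Set K, A.Countable → B.Countable → Disjoint (closure A) B → Disjoint A (closure B) →
    Disjoint (closure A) (closure B)

/-- Disjoint cozero sets have disjoint closures (compact Hausdorff spaces with this property are the
compact F-spaces). -/
def FSp (K : Type) [TopologicalSpace K] : Prop :=
  ∀ f g : K → ℝ, Continuous f → Continuous g → (∀ x, f x = 0 ∨ g x = 0) →
    Disjoint (closure {x | f x ≠ 0}) (closure {x | g x ≠ 0})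

/-- A sequence which is strongly discrete from some index on. -/
def SD {K : Type} [TopologicalSpace K] (a : ℕ → K) : Prop :=
  ∃ O : ℕ → Set K, (∀ m, IsOpen (O m)) ∧ (∀ m n, m ≠ n → Disjoint (O m) (O n)) ∧
    ∀ᶠ m in atTop, a m ∈ O m

/-- Injective from some index on. -/
def EI {K : Type} (a : ℕ → K) : Prop := ∃ N : ℕ, ∀ m n, N ≤ m → N ≤ n → a m = a n → m = n

/-- Some sequence of points is eventually injective in all coordinates `i ∈ A`. -/
def Typ {X : Type} {K : ℕ → Type} (f : ∀ i, X → K i) (A : Set ℕ) : Prop :=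
  ∃ d : ℕ → X, ∀ i ∈ A, EI fun n => f i (d n)

/-! ### Ultrafilters on `ℕ` -/

/-- Weak P-point: not in the closure of a sequence of other nonprincipal ultrafilters. -/
def WP (p : Ultrafilter ℕ) : Prop :=
  (p : Filter ℕ) ≤ cofinite ∧
    ∀ r : ℕ → Ultrafilter ℕ, (∀ n, (r n : Filter ℕ) ≤ cofinite) → (∀ n, r n ≠ p) →
      ∃ V ∈ p, ∀ n, V ∉ r n

/-- `p` is not below `q` in the Rudin-Keisler order. -/
def NR (p q : Ultrafilter ℕ) : Prop := ∀ g : ℕ → ℕ, q.map g ≠ p

/-! ### The matrix of Kunen -/

/-- The countable set `S` of all pairs `(k, f)`, `f` a map from the subsets of `k` to the sets of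
subsets of `k`. -/
def SS : Type := Σ k : ℕ, (Finset (Fin k) → Finset (Finset (Fin k)))

open Classical in
/-- The trace of `X` on `{0, ..., k - 1}`. -/
noncomputable def tr (X : Set ℕ) (k : ℕ) : Finset (Fin k) :=
  Finset.univ.filter fun i : Fin k => (i : ℕ) ∈ X

/-- The set in row `X`, column `Y`, level `n`. -/
def mat (X Y : Set ℕ) (n : ℕ) : Set SS :=
  {s | tr Y s.1 ∈ s.2 (tr X s.1) ∧ (s.2 (tr X s.1)).card ≤ n}

/-- The intersection of the sets in the places `(row, column) ∈ D`, level `n row`. -/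
def Bx (D : Finset (Set ℕ × Set ℕ)) (n : Set ℕ → ℕ) : Set SS :=
  {s | ∀ z ∈ D, s ∈ mat z.1 z.2 (n z.1)}

open Classical in
/-- The rows are in `J`, and in each row at most `n row` columns are used. -/
def Adm (J : Set (Set ℕ)) (D : Finset (Set ℕ × Set ℕ)) (n : Set ℕ → ℕ) : Prop :=
  (∀ z ∈ D, z.1 ∈ J) ∧ ∀ X, (D.filter fun z => z.1 = X).card ≤ n X

/-- The rows in `J` are independent modulo the filter `F`. -/
def Ind (F : Filter SS) (J : Set (Set ℕ)) : Prop :=
  F ≤ cofinite ∧ ∀ D n, Adm J D n → ∀ A ∈ F, (A ∩ Bx D n).Nonempty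

/-- `V` is linked below `U`: `n + 1` of the sets `V Y` meet in a set almost contained in
`U 0 ∩ ... ∩ U (n + 1)`. -/
def Lnk (U : ℕ → Set SS) (V : Set ℕ → Set SS) : Prop :=
  ∀ (n : ℕ) (T : Finset (Set ℕ)), n < T.card →
    {s | (∀ Y ∈ T, s ∈ V Y) ∧ ∃ m ≤ n + 1, s ∉ U m}.Finite

/-- The requirement of the sequence `U` and of the ultrafilter `u`. -/
def Done (U : ℕ → Set SS) (u : Ultrafilter SS) (F : Filter SS) : Prop :=
  ((∃ n, (U n)ᶜ ∈ F) ∨ ∃ V : Set ℕ → Set SS, (∀ Y, V Y ∈ F) ∧ Lnk U V) ∧ ∃ B ∈ F, B ∉ u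

end Pool.Agent.HFP
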