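import Pool.Agent.HFP.St

set_option autoImplicit false

open Filter Topology Set

namespace Pool.Agent.HFP

private theorem FSC_fun {K : Type} [TopologicalSpace K] [T2Space K] [CompactSpace K] (A B : Set K)
    (hA : A.Countable) (hAB : Disjoint A (closure B)) :
    ∃ φ : K → ℝ, Continuous φ ∧ (∀ x, 0 ≤ φ x) ∧ (∀ x ∈ closure B, φ x = 0) ∧
      ∀ x ∈ A, 0 < φ x := by
  rcases A.eq_empty_or_nonempty with h0 | h0
  · exact ⟨fun _ => 0, continuous_const, fun _ => le_rfl, fun _ _ => rfl, fun x hx => by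
      rw [h0] at hx
      exact hx.elim⟩
  · obtain ⟨a, ha⟩ := hA.exists_eq_range h0
    have hn : ∀ n : ℕ, ∃ f : C(K, ℝ), EqOn f 0 (closure B) ∧ EqOn f 1 {a n} ∧
        ∀ x, f x ∈ Icc (0 : ℝ) 1 := by
      intro n
      apply exists_continuous_zero_one_of_isClosed isClosed_closure isClosed_singleton
      rw [Set.disjoint_singleton_right]
      intro h
      exact Set.disjoint_left.1 hAB (by rw [ha]; exact ⟨n, rfl⟩) h
    choose f hf0 hf1 hf using hn
    have hu : Summable fun n : ℕ => (1 / 2 : ℝ) ^ n := summable_geometric_two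
    have hb : ∀ (n : ℕ) (x : K), ‖(1 / 2 : ℝ) ^ n * f n x‖ ≤ (1 / 2 : ℝ) ^ n := by
      intro n x
      rw [Real.norm_eq_abs, abs_of_nonneg (mul_nonneg (by positivity) (hf n x).1)]
      exact mul_le_of_le_one_right (by positivity) (hf n x).2
    have hs : ∀ x : K, Summable fun n : ℕ => (1 / 2 : ℝ) ^ n * f n x := fun x =>
      Summable.of_norm_bounded hu fun n => hb n x
    have hpos : ∀ (n : ℕ) (x : K), 0 ≤ (1 / 2 : ℝ) ^ n * f n x := fun n x =>
      mul_nonneg (by positivity) (hf n x).1
    refine ⟨fun x => ∑' n : ℕ, (1 / 2 : ℝ) ^ n * f n x, ?_, ?_, ?_, ?_⟩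
    · exact continuous_tsum (fun n => continuous_const.mul (f n).continuous) hu hb
    · intro x
      exact tsum_nonneg fun n => hpos n x
    · intro x hx
      show ∑' n : ℕ, (1 / 2 : ℝ) ^ n * f n x = 0
      have : ∀ n : ℕ, (1 / 2 : ℝ) ^ n * f n x = 0 := by
        intro n
        have h1 : f n x = 0 := hf0 n hx
        rw [h1, mul_zero]
      simp only [this, tsum_zero]
    · intro x hx
      rw [ha] at hx
      obtain ⟨n, rfl⟩ := hx
      have h1 : f n (a n) = 1 := hf1 n (Set.mem_singleton _)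
      have h2 : (1 / 2 : ℝ) ^ n * f n (a n) ≤ ∑' m : ℕ, (1 / 2 : ℝ) ^ m * f m (a n) :=
        (hs (a n)).le_tsum n fun m _ => hpos m (a n)
      rw [h1, mul_one] at h2
      exact lt_of_lt_of_le (by positivity) h2

theorem thm_FSC : St_FSC := by
  intro K _ _ _ hK A B hA hB h1 h2
  obtain ⟨φ, hφ, hφ0, hφB, hφA⟩ := FSC_fun A B hA h2
  obtain ⟨ψ, hψ, hψ0, hψA, hψB⟩ := FSC_fun B A hB h1.symm
  have key := hK (fun x => max (φ x - ψ x) 0) (fun x => max (ψ x - φ x) 0)
    ((hφ.sub hψ).max continuous_const) ((hψ.sub hφ).max continuous_const) fun x => by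
      rcases le_total (φ x) (ψ x) with h | h
      · left
        exact max_eq_right (by linarith)
      · right
        exact max_eq_right (by linarith)
  refine key.mono (closure_mono ?_) (closure_mono ?_)
  · intro x hx
    have e1 := hφA x hx
    have e2 := hψA x (subset_closure hx)
    show max (φ x - ψ x) 0 ≠ 0
    rw [e2, sub_zero, max_eq_left e1.le]
    exact e1.ne'
  · intro x hx
    have e1 := hψB x hx
    have e2 := hφB x (subset_closure hx)
    show max (ψ x - φ x) 0 ≠ 0
    rw [e2, sub_zero, max_eq_left e1.le]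
    exact e1.ne'

end Pool.Agent.HFP
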