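import Pool.Agent.HFP.St

set_option autoImplicit false

open Filter Topology Set

namespace Pool.Agent.HFP

private theorem MAI_fiber (j : Set ℕ → ℕ) : ∃ n, (j ⁻¹' {n}).Infinite := by
  by_contra hc
  push Not at hc
  have h1 : (univ : Set (Set ℕ)) = ⋃ n, j ⁻¹' {n} := by
    ext ξ
    simp
  have h2 : (univ : Set (Set ℕ)).Countable := by
    rw [h1]
    exact Set.countable_iUnion fun n => (hc n).countable
  have h3 : Countable (Set ℕ) := Set.countable_univ_iff.1 h2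
  obtain ⟨F, hF⟩ := h3.exists_injective_nat
  exact Function.cantor_injective F hF

theorem thm_MAI : St_SDL → St_KUN → St_THN → St_TYP → St_CVG → St_ZSQ → St_FAM → St_MAI := by
  intro hSDL hKUN hTHN hTYP hCVG hZSQ hFAM
  intro X M K _ _ _ _ _ _ _ _ _ g f hSep hg hf hinj hhom i0
  by_contra hfin
  have hinf : (range (f i0)).Infinite := hfin
  have hTyp0 : Typ f {i0} := by
    let e := hinf.natEmbedding
    choose d0 hd0 using fun n => (e n).2
    refine ⟨d0, ?_⟩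
    intro i hi
    rw [Set.mem_singleton_iff] at hi
    subst hi
    refine ⟨0, fun m n _ _ h => ?_⟩
    simp only [hd0] at h
    exact e.injective (Subtype.ext h)
  obtain ⟨A, hA0, ⟨d1, hd1⟩, hAmax⟩ := hTYP X K f i0 hTyp0
  obtain ⟨φ, hφ, hSD⟩ := hTHN K (fun i => fun n => f i (d1 n)) A hd1
  obtain ⟨d, hd⟩ : ∃ d : ℕ → X, ∀ i, f i ∘ d = (fun n => f i (d1 n)) ∘ φ := ⟨d1 ∘ φ, fun i => rfl⟩
  have hSD' : ∀ i ∈ A, SD (f i ∘ d) := fun i hi => by rw [hd i]; exact hSD i hi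
  obtain ⟨q, p, hq, hpinj, hp⟩ := hFAM
  have hlim : ∀ u : Ultrafilter ℕ, ∃ x, Tendsto d u (𝓝 x) := by
    intro u
    obtain ⟨x, -, hx⟩ := isCompact_univ.ultrafilter_le_nhds (u.map d) (by simp)
    exact ⟨x, hx⟩
  obtain ⟨y, hy⟩ := hlim q
  choose x hx using fun ξ => hlim (p ξ)
  choose h hcont hhinj hhy using fun ξ => hhom y (x ξ)
  have he : ∀ ξ, Tendsto (fun n => h ξ (d n)) q (𝓝 (x ξ)) := by
    intro ξ
    rw [← hhy ξ]
    exact ((hcont ξ).tendsto y).comp hy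
  have hkun : ∀ ξ, ∀ i ∈ A, ∀ᶠ n in (q : Filter ℕ), f i (h ξ (d n)) = f i (x ξ) := by
    intro ξ i hi
    exact hKUN (K i) (hSep i) (p ξ) q (f i ∘ d) (fun n => f i (h ξ (d n))) (f i (x ξ)) (hp ξ).1
      (hp ξ).2 (hSD' i hi) (((hf i).tendsto _).comp (hx ξ)) (((hf i).tendsto _).comp (he ξ))
  have hclaim : ∀ ξ, ∃ j, ¬ ∀ᶠ n in (q : Filter ℕ), f j (h ξ (d n)) = f j (x ξ) := by
    intro ξ
    by_contra hc
    push Not at hc
    obtain ⟨φ', x', hφ', hx'⟩ := hCVG X M K g f hg hf hinj q (fun n => h ξ (d n)) (x ξ) hq hc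
    have hemb : IsClosedEmbedding (h ξ) := (hcont ξ).isClosedEmbedding (hhinj ξ)
    have hmem : x' ∈ range (h ξ) :=
      hemb.isClosed_range.mem_of_tendsto hx' (Eventually.of_forall fun n => ⟨_, rfl⟩)
    obtain ⟨x'', rfl⟩ := hmem
    have h1 : Tendsto (d ∘ φ') atTop (𝓝 x'') := (hemb.isInducing.tendsto_nhds_iff).2 hx'
    exact (hSDL (K i0) (hSep i0) (f i0 ∘ d) (hSD' i0 hA0)).2 φ' (f i0 x'') hφ'
      (((hf i0).tendsto _).comp h1)
  choose j hj using hclaim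
  obtain ⟨j0, hj0⟩ := MAI_fiber j
  let ξ := hj0.natEmbedding
  have hξ : ∀ k, j (ξ k) = j0 := fun k => (ξ k).2
  have hmem : j0 ∈ A := by
    apply hAmax
    refine hZSQ X K f q A j0 (fun k => x (ξ k)) (fun k n => h (ξ k) (d n)) ?_ ?_ ?_
    · intro i hi k
      exact hkun (ξ k) i hi
    · intro i hi k l hkl heq
      refine (hSDL (K i) (hSep i) (f i ∘ d) (hSD' i hi)).1 (p (ξ k)) (p (ξ l)) (f i (x (ξ k)))
        (hp _).1.1 (hp _).1.1 ?_ (((hf i).tendsto _).comp (hx (ξ k))) ?_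
      · intro hpp
        exact hkl (ξ.injective (Subtype.ext (hpinj hpp)))
      · change f i (x (ξ k)) = f i (x (ξ l)) at heq
        rw [heq]
        exact ((hf i).tendsto _).comp (hx (ξ l))
    · intro k v hv
      have h1 : Tendsto (fun n => f j0 (h (ξ k) (d n))) q (𝓝 (f j0 (x (ξ k)))) :=
        ((hf j0).tendsto _).comp (he (ξ k))
      have h2 : Tendsto (fun n => f j0 (h (ξ k) (d n))) q (𝓝 v) :=
        tendsto_const_nhds.congr' (hv.mono fun n hn => hn.symm)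
      have h3 : v = f j0 (x (ξ k)) := tendsto_nhds_unique h2 h1
      have h4 := hj (ξ k)
      rw [hξ k] at h4
      apply h4
      rw [← h3]
      exact hv
  have h4 := hj (ξ 0)
  rw [hξ 0] at h4
  exact h4 (hkun (ξ 0) j0 hmem)

end Pool.Agent.HFP
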