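import Pool.Agent.HFP.Defs

/-!
# HFP: statements (MP_2385c0_gt)

Architect helper80.  Every `St_X` is a statement; its complete proof is in the docstring.  A module
`Pool/Agent/HFP/X.lean` proves `thm_X : St_A → St_B → ... → St_X` with exactly the hypotheses listed in the docstring (from A, B, ...), in
this order; no hypotheses if none are listed.
-/

set_option autoImplicit false

open Filter Topology Set

namespace Pool.Agent.HFP

/-! ## Part 1: topology -/

/-- **FSC** (0.7 h, no hypotheses).  Compact F-spaces: separated countable sets have disjoint closures.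
Proof.  If `A` or `B` is empty, trivial.  Otherwise `A = range a`, `B = range b` (`Set.Countable.exists_eq_range`).  Urysohn (`exists_continuous_zero_one_of_isClosed`; `K` is normal): continuous `φ_n : K → [0, 1]`, `φ_n = 1` at `a n`,
`φ_n = 0` on `closure B` (`a n ∉ closure B`); `ψ_n = 1` at `b n`, `ψ_n = 0` on `closure A`.  `φ = ∑ 2⁻ⁿ φ_n`, `ψ = ∑ 2⁻ⁿ ψ_n` are continuous (`continuous_tsum`), nonnegative, `φ > 0` on `A`, `φ = 0` on `closure B`, `ψ > 0` on `B`, `ψ = 0` on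
`closure A`.  `f = max (φ - ψ) 0`, `g = max (ψ - φ) 0`: at each point one of them is `0`; `f ≠ 0` on `A`, `g ≠ 0` on `B`.  So the closures of `A` and `B` are disjoint. -/
def St_FSC : Prop := ∀ (K : Type) [TopologicalSpace K] [T2Space K] [CompactSpace K], FSp K → SepC K

/-- **SDL** (0.6 h, no hypotheses).  Limits of strongly discrete sequences.
Proof.  Fact: let `O`, `N` be as in `SD` (`a m ∈ O m` for `m ≥ N`).  For disjoint `S, S' ⊆ {m | N ≤ m}` the sets `a '' S`, `a '' S'` are countable and separated: for `m ∈ S'` the open set `O m ∋ a m` is disjoint from `a '' S` (`O m` is disjoint from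
`O k`, `k ∈ S`, `k ≠ m`); so `closure (a '' S)` and `closure (a '' S')` are disjoint (`SepC`).  (1) `p ≠ p'`: some `S ∈ p`, `Sᶜ ∈ p'`; the sets `{m | N ≤ m}` are in both (nonprincipal).  If `a` tends to `y` along `p` and along `p'` then
`y` is in both closures (`mem_closure_of_tendsto`).  (2) If `a ∘ φ` tends to `y`, then `y` is in the closures of the images of the disjoint sets `{φ (2 k) | k ≥ N}`, `{φ (2 k + 1) | k ≥ N}` (`φ k ≥ k`). -/
def St_SDL : Prop := ∀ (K : Type) [TopologicalSpace K], SepC K → ∀ a : ℕ → K, SD a →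
  (∀ (p p' : Ultrafilter ℕ) (y : K), (p : Filter ℕ) ≤ cofinite → (p' : Filter ℕ) ≤ cofinite → p ≠ p' →
    Tendsto a p (𝓝 y) → ¬ Tendsto a p' (𝓝 y)) ∧
  ∀ (φ : ℕ → ℕ) (y : K), StrictMono φ → ¬ Tendsto (a ∘ φ) atTop (𝓝 y)

/-- **KUN** (1.3 h, no hypotheses).  The lemma of Kunen.
Proof.  Let `O`, `N` be as in `SD d` (`d m ∈ O m` for `m ≥ N`); `p` is nonprincipal, so `{m | N ≤ m} ∈ p`.  Suppose `{n | e n = y} ∉ q`.
(1) There is `U0 ∈ q` with `M0 = {m | d m ∉ closure (e '' U0)} ∈ p`.  Otherwise `{m | d m ∈ closure (e '' U)} ∈ p` for all `U ∈ q`.  Let `g n = m` if `e n ∈ O m` (at most one `m`), `g n = 0` if there is none.  Claim `q.map g = p`, against `NR`: it is enough that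
`V ∈ p → g ⁻¹' V ∈ q` (`Ultrafilter.eq_of_le`).  If `g ⁻¹' V ∉ q` then `U = {n | g n ∉ V} ∈ q`, so there is `m ∈ V`, `m ≥ N`, with `d m ∈ closure (e '' U)` (`p` is nonprincipal, intersections of sets of `p` are nonempty), so the neighbourhood `O m` of `d m` contains some
`e n`, `n ∈ U`; `g n = m ∈ V`, contradiction.
(2) There is `V0 ∈ p` with `N0 = {n | e n ∉ closure (d '' V0)} ∈ q`.  Otherwise `{n | e n ∈ closure (d '' V)} ∈ q` for all `V ∈ p`; call this (*).  With `V = {m | N ≤ m}`: for `n` in a set `Q ∈ q` there is an ultrafilter `r n ∋ {m | N ≤ m}` on `ℕ` with `Tendsto d (r n) (𝓝 (e n))`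
(`mem_closure_image_iff_ultrafilter` or: `comap d (𝓝 (e n)) ⊓ 𝓟 {m | N ≤ m}` is `NeBot`).  We may assume `e n ≠ y` for `n ∈ Q`; then `r n ≠ p` (`T2`).
(2a) If `r n` is principal for `q`-most `n`, `r n = pure (g n)`, `g n ≥ N`, `e n = d (g n)`.  Then `q.map g = p`, against `NR`: for `V ∈ p` let `V' = V ∩ {m | N ≤ m}`; for `q`-most `n` `d (g n) = e n ∈ closure (d '' V')` by (*), so the open set `O (g n)` meets `d '' V'`, so `g n ∈ V'`.
(2b) Otherwise `r n` is nonprincipal (`≤ cofinite`) for all `n` in a set `Q' ∈ q`, `Q' ⊆ Q` (`Ultrafilter.le_cofinite_or_eq_pure`).  Change `r n` for `n ∉ Q'` to a value of `r` on `Q'` (`Q'` is nonempty).  `WP p` gives `V ∈ p` with `V ∉ r n` for all `n`.  With `V' = V ∩ {m | N ≤ m}` and (*) there is `n ∈ Q'` with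
`e n ∈ closure (d '' V')`; also `Vᶜ ∩ {m | N ≤ m} ∈ r n`, so `e n ∈ closure (d '' (Vᶜ ∩ {m | N ≤ m}))`.  These two sets are countable and separated (as in SDL), so their closures are disjoint: contradiction.
(3) `U1 = U0 ∩ N0 ∈ q`, `V1 = M0 ∩ V0 ∈ p`: `e '' U1` and `d '' V1` are countable and separated, so their closures are disjoint, but `y` is in both (`mem_closure_of_tendsto`). -/
def St_KUN : Prop := ∀ (K : Type) [TopologicalSpace K] [T2Space K], SepC K → ∀ (p q : Ultrafilter ℕ) (d e : ℕ → K) (y : K),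
  WP p → NR p q → SD d → Tendsto d p (𝓝 y) → Tendsto e q (𝓝 y) → ∀ᶠ n in (q : Filter ℕ), e n = y

/-- **THN** (1 h, no hypotheses).  Thinning out.
Proof.  Let `u = hyperfilter ℕ`, `z i = lim` of `a i` along `u` (`K i` is compact: `Ultrafilter.le_nhds_lim` or `isCompact_univ.ultrafilter_le_nhds`).  For `i ∈ A`, `a i` is eventually injective, so `a i n ≠ z i` for all but finitely many `n`.
Construct `φ 0 < φ 1 < ...` and open sets `W k i ∋ z i`, `O k i ∋ a i (φ k)` by recursion (state: `φ k` and `W k : ∀ i, Set (K i)`): `W 0 i = univ`; given `W k i` open, `∋ z i`, choose `φ k` larger than the previous ones such that for all `i ≤ k`, `i ∈ A`: `a i (φ k) ∈ W k i` and `a i (φ k) ≠ z i` (finitely many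
conditions, each true for `u`-most `n`); then for `i ≤ k`, `i ∈ A` choose disjoint open sets `O k i ∋ a i (φ k)` and `W' ∋ z i` (`T2`), replace both by their intersection with `W k i`, `W (k+1) i = W'`; for other `i` `W (k+1) i = W k i`, `O k i = ∅`.  Then `O k i ⊆ W k i`, `O k i ∩ W (k+1) i = ∅` and `W` is decreasing, so the
`O k i`, `k ∈ ℕ`, are pairwise disjoint, and `a i (φ k) ∈ O k i` for `k ≥ i`. -/
def St_THN : Prop := ∀ (K : ℕ → Type) [∀ i, TopologicalSpace (K i)] [∀ i, T2Space (K i)] [∀ i, CompactSpace (K i)]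
  (a : ∀ i, ℕ → K i) (A : Set ℕ), (∀ i ∈ A, EI (a i)) → ∃ φ : ℕ → ℕ, StrictMono φ ∧ ∀ i ∈ A, SD (a i ∘ φ)

/-- **TYP** (0.8 h, no hypotheses; no topology).  A maximal type.
Proof.  (`Typ f A`, `B ⊆ A` imply `Typ f B`.)  `A_0 = {i0}`, `A_(k+1) = insert k A_k` if `Typ f (insert k A_k)`, else `A_k`.  By induction `A_k` is finite and `Typ f A_k`.  Let `A = ⋃ A_k`.  Maximality: if `Typ f (insert j A)` then `Typ f (insert j A_j)`, so `j ∈ A_(j+1) ⊆ A`.
`Typ f A`: let `d_k` be a sequence for `A_k`.  Choose `z_0, z_1, ...` recursively, `z_k = d_k n` with `n` so large that `f i (z_k) ≠ f i (z_m)` for all `i ∈ A_k`, `m < k` (for each of these finitely many pairs there is at most one large `n` with equality, since `n ↦ f i (d_k n)` is eventually injective).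
If `i ∈ A`, then `i ∈ A_k` for all large `k`, so `k ↦ f i (z_k)` is eventually injective. -/
def St_TYP : Prop := ∀ (X : Type) (K : ℕ → Type) (f : ∀ i, X → K i) (i0 : ℕ), Typ f {i0} →
  ∃ A : Set ℕ, i0 ∈ A ∧ Typ f A ∧ ∀ j, Typ f (insert j A) → j ∈ A

/-- **CVG** (0.7 h, no hypotheses).  A convergent subsequence.
Proof.  For all `k` the set of all `n` with `f j (e n) = f j x` for all `j ≤ k` is in `q`, so it is infinite; choose `φ0` strictly increasing with `f j (e (φ0 k)) = f j x` for `j ≤ k` (`Nat.exists_strictMono_subsequence` or `extraction_forall_of_frequently`).  `SeqCompactSpace M`: there are `φ1` and `m` with `g ∘ e ∘ φ0 ∘ φ1 → m`.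
Let `φ = φ0 ∘ φ1`.  `X` is compact: let `x'` be a cluster point of `e ∘ φ`.  Every cluster point `c` of `e ∘ φ` has `g c = m` and `f j c = f j x` for all `j` (`g`, `f j` continuous, `M`, `K j` Hausdorff), so there is only one (joint injectivity), and `e ∘ φ` converges to it (`IsCompact.le_nhds_of_unique_clusterPt`). -/
def St_CVG : Prop := ∀ (X M : Type) (K : ℕ → Type) [TopologicalSpace X] [CompactSpace X] [TopologicalSpace M] [T2Space M] [SeqCompactSpace M]
  [∀ i, TopologicalSpace (K i)] [∀ i, T2Space (K i)] (g : X → M) (f : ∀ i, X → K i), Continuous g → (∀ i, Continuous (f i)) →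
  (∀ x y, g x = g y → (∀ i, f i x = f i y) → x = y) → ∀ (q : Ultrafilter ℕ) (e : ℕ → X) (x : X), (q : Filter ℕ) ≤ cofinite →
  (∀ j, ∀ᶠ n in (q : Filter ℕ), f j (e n) = f j x) → ∃ (φ : ℕ → ℕ) (x' : X), StrictMono φ ∧ Tendsto (e ∘ φ) atTop (𝓝 x')

/-- **ZSQ** (0.5 h, no hypotheses; no topology).  The diagonal sequence of a larger type.
Proof.  Choose `z_0, z_1, ...` recursively: `z_k = e k n` with `f i (e k n) = f i (x k)` for all `i ≤ k`, `i ∈ A`, and `f j (e k n) ≠ f j (z_m)` for all `m < k`; `n` exists, because each of these finitely many conditions is true for `q`-most `n`.  For `i ∈ A` the map `k ↦ f i (z_k) = f i (x k)` is injective on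
`k ≥ i`, and `k ↦ f j (z_k)` is injective. -/
def St_ZSQ : Prop := ∀ (X : Type) (K : ℕ → Type) (f : ∀ i, X → K i) (q : Ultrafilter ℕ) (A : Set ℕ) (j : ℕ) (x : ℕ → X) (e : ℕ → ℕ → X),
  (∀ i ∈ A, ∀ k, ∀ᶠ n in (q : Filter ℕ), f i (e k n) = f i (x k)) → (∀ i ∈ A, ∀ k l, k ≠ l → f i (x k) ≠ f i (x l)) →
  (∀ k v, ¬ ∀ᶠ n in (q : Filter ℕ), f j (e k n) = v) → Typ f (insert j A)

/-! ## Part 2: weak P-points (Kunen) -/

/-- **MAT** (1 h, no hypotheses).  The matrix.  `SS` is countable and infinite.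
Proof.  (1) clear.  (2) Let `k0` be so large that the traces `tr Y k`, `Y ∈ T`, are pairwise different for `k ≥ k0` (for each pair take a number in the symmetric difference).  If `s = (k, f)` is in the set and `k ≥ k0`, then `f (tr X k)` contains the `|T| > n` elements `tr Y k`, but has at most `n` elements: impossible.
So `k < k0`, and there are finitely many such `s`.  (3) For all large `k` the traces on `k` of the finitely many rows occurring in `D` are pairwise different; let `f (tr X k) = {tr Y k | (X, Y) ∈ D}` for these rows `X` (`f R = ` image of the filter of `D` by `tr z.1 k = R` under `z ↦ tr z.2 k`); it has at most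
`n X` elements (a finset image of the filter `z.1 = X`).  Then `(k, f) ∈ Bx D n`; different `k` give different elements. -/
def St_MAT : Prop :=
  (∀ (X Y : Set ℕ) (m n : ℕ), m ≤ n → mat X Y m ⊆ mat X Y n) ∧
  (∀ (X : Set ℕ) (n : ℕ) (T : Finset (Set ℕ)), n < T.card → {s | ∀ Y ∈ T, s ∈ mat X Y n}.Finite) ∧
  (∀ (D : Finset (Set ℕ × Set ℕ)) (n : Set ℕ → ℕ), Adm univ D n → (Bx D n).Infinite) ∧ Countable SS ∧ Infinite SS

/-- **TRN** (1.5 h, no hypotheses).  A transfinite construction.  (`P F J`: the rows in `J` are still free; `Dn t F`: the task `t` is done.)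
Proof.  Well order `τ` by `r` in type `ord #τ` (`Cardinal.ord_eq`), so `#{s | r s t} < #τ` for all `t` (`Cardinal.card_typein_lt`).  Let `step t F J = (F', R)` as in `hd` if `P F J` and `J` is not countable, otherwise `(F, ∅)`; `R` is always countable.  Define `G t = step t (F_t) (J_t)` by well-founded recursion (`WellFounded.fix`),
`F_t = sInf ({F0} ∪ {(G s).1 | r s t})`, `J_t = J0 \ ⋃ {(G s).2 | r s t}`.  `#⋃ {(G s).2 | r s t} ≤ #{s | r s t} * ℵ₀ < #J0` (`J0` is uncountable and `#τ ≤ #J0`), so `J_t` is not countable (otherwise `#J0 < #J0`).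
Claim: `P F_t J_t` for all `t`, by induction.  If it holds for all `s` with `r s t`, then for these `s`: `(G s).1 ≤ F_s`, `P (G s).1 (J_s \ (G s).2)`, `Dn s (G s).1`; for `r s s'`, `r s' t`: `(G s').1 ≤ F_{s'} ≤ (G s).1`; `(G s).1 ≤ F0`.  So `{F0} ∪ {(G s).1 | r s t}` is a chain, all of its members `F` have `P F J_t` (by `ha`:
`J_t ⊆ J_s \ (G s).2`, `J_t ⊆ J0`), and `hb` gives `P F_t J_t`.  Finally `F = sInf ({F0} ∪ {(G s).1 | all s})`, `R = ⋃ (G s).2` in the same way; `#R ≤ #τ * ℵ₀ ≤ max #τ ℵ₀`, `Dn` by `hc`. -/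
def St_TRN : Prop := ∀ (S ρ τ : Type) (P : Filter S → Set ρ → Prop) (Dn : τ → Filter S → Prop) (F0 : Filter S) (J0 : Set ρ),
  (∀ F J J', P F J → J' ⊆ J → P F J') →
  (∀ (G : Set (Filter S)) (J : Set ρ), G.Nonempty → IsChain (· ≤ ·) G → (∀ F ∈ G, P F J) → P (sInf G) J) →
  (∀ t F F', F' ≤ F → Dn t F → Dn t F') →
  (∀ t F J, P F J → ¬ J.Countable → ∃ F' ≤ F, ∃ R : Set ρ, R.Countable ∧ P F' (J \ R) ∧ Dn t F') →
  P F0 J0 → ¬ J0.Countable → Cardinal.mk τ ≤ Cardinal.mk J0 →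
  ∃ F ≤ F0, ∃ R : Set ρ, Cardinal.mk R ≤ max (Cardinal.mk τ) Cardinal.aleph0 ∧ P F (J0 \ R) ∧ ∀ t, Dn t F

/-- **IND** (0.8 h, from MAT).  Basic facts on independence.
Proof.  (1) clear.  (2) A set `A ∈ sInf G` is in some `F ∈ G` (`G` is a nonempty chain, so directed: `mem_sInf_of_directed` or `Filter.mem_iInf_of_directed`).  (3) `A ∈ F ⊓ 𝓟 (Bx D0 n0)`: `A ⊇ A' ∩ Bx D0 n0`, `A' ∈ F`.  Given `D`, `n` admissible for `J \ {z.1 | z ∈ D0}`, use `D0 ∪ D` with the level `n0 X` for the rows `X` of `D0` and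
`n X` for the others (no row occurs in both): `Bx (D0 ∪ D) n' = Bx D0 n0 ∩ Bx D n`.  (4) `Bx D n` is infinite (MAT (3)) and the members of `cofinite` have finite complements. -/
def St_IND : Prop :=
  (∀ F J J', Ind F J → J' ⊆ J → Ind F J') ∧
  (∀ (G : Set (Filter SS)) (J : Set (Set ℕ)), G.Nonempty → IsChain (· ≤ ·) G → (∀ F ∈ G, Ind F J) → Ind (sInf G) J) ∧
  (∀ F J D0 n0, Ind F J → Adm J D0 n0 → Ind (F ⊓ 𝓟 (Bx D0 n0)) (J \ {X | ∃ z ∈ D0, z.1 = X})) ∧
  Ind cofinite univ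

/-- **DEC** (0.5 h, from IND).  Deciding one set.
Proof.  If `Ind (F ⊓ 𝓟 B) J`, take it, `R = ∅`.  Otherwise (`F ⊓ 𝓟 B ≤ cofinite` is clear) there are `D`, `n` admissible for `J` and `A ∈ F ⊓ 𝓟 B` with `A ∩ Bx D n = ∅`; `A ⊇ A' ∩ B`, `A' ∈ F`.  Take `F' = F ⊓ 𝓟 (Bx D n)`, `R = {X | ∃ z ∈ D, z.1 = X}` (IND (3)); `A' ∩ Bx D n ⊆ Bᶜ`. -/
def St_DEC : Prop := ∀ (F : Filter SS) (J : Set (Set ℕ)) (B : Set SS), Ind F J →
  ∃ F' ≤ F, ∃ R : Set (Set ℕ), R.Countable ∧ Ind F' (J \ R) ∧ (B ∈ F' ∨ Bᶜ ∈ F')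

/-- **DCW** (0.4 h, from TRN, IND, DEC).  Deciding countably many sets.
Proof.  TRN with `S = SS`, `ρ = Set ℕ`, `τ = ℕ`, `P = Ind`, `Dn n F = (U n ∈ F ∨ (U n)ᶜ ∈ F)`, `F0 = F`, `J0 = J`; `#R ≤ ℵ₀` means that `R` is countable. -/
def St_DCW : Prop := ∀ (F : Filter SS) (J : Set (Set ℕ)) (U : ℕ → Set SS), Ind F J → ¬ J.Countable →
  ∃ F' ≤ F, ∃ R : Set (Set ℕ), R.Countable ∧ Ind F' (J \ R) ∧ ∀ n, U n ∈ F' ∨ (U n)ᶜ ∈ F'

/-- **OKS** (1 h, from MAT, IND).  Adding linked sets below a sequence of members of the filter.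
Proof.  `V Y = {s | s ∈ U 0 ∧ ∀ m, (∀ k ≤ m, s ∈ U k) → s ∉ U (m + 1) → s ∈ mat X Y m}`.  `Lnk U V`: let `n < |T|`, `s ∈ V Y` for all `Y ∈ T`, and `s ∉ U m` for some `m ≤ n + 1`.  Then `s ∈ U 0` (`T` is nonempty), and there is `m ≤ n` with `s ∈ U k` for `k ≤ m` and `s ∉ U (m + 1)`, so `s ∈ mat X Y m` for all `Y ∈ T`;
`m < |T|`: finitely many such `s` (MAT (2)), for each of the finitely many `m ≤ n`.
`Ind`: let `D`, `n` be admissible for `J \ {X}` and `A ∈ F ⊓ ⨅ Y, 𝓟 (V Y)`: `A ⊇ A' ∩ ⋂ Y ∈ T, V Y`, `A' ∈ F`, `T` finite (`Filter.mem_inf_iff`, `mem_iInf` / `Filter.mem_iInf_finset`).  Let `m = |T|`, `A'' = A' ∩ ⋂ k ≤ m, U k ∈ F`.  Then `D' = D ∪ {(X, Y) | Y ∈ T}` with level `m` in the row `X` and the levels `n` in the other rows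
is admissible for `J`, so there is `s ∈ A'' ∩ Bx D' n'`.  `s ∈ V Y` for `Y ∈ T`: `s ∈ U 0`; if `s ∈ U k` for all `k ≤ m'` and `s ∉ U (m' + 1)` then `m' ≥ m`, so `s ∈ mat X Y m ⊆ mat X Y m'` (MAT (1)).  So `s ∈ A ∩ Bx D n`. -/
def St_OKS : Prop := ∀ (F : Filter SS) (J : Set (Set ℕ)) (X : Set ℕ) (U : ℕ → Set SS), Ind F J → X ∈ J → (∀ n, U n ∈ F) →
  ∃ V : Set ℕ → Set SS, Lnk U V ∧ Ind (F ⊓ ⨅ Y, 𝓟 (V Y)) (J \ {X})

/-- **NRK** (0.5 h, from MAT, IND).  A set of the filter which is not in the ultrafilter `u`.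
Proof.  Let `Y1 = ∅`, `Y2 = univ` (or any two different columns), `C = mat X Y1 1 ∩ mat X Y2 1`, finite by MAT (2).  If `C ∈ u`, take `F' = F`, `B = Cᶜ ∈ cofinite`.  Otherwise one of the two sets, `mat X Y 1`, is not in `u`; take `F' = F ⊓ 𝓟 (mat X Y 1) = F ⊓ 𝓟 (Bx {(X, Y)} (fun _ => 1))` (IND (3)). -/
def St_NRK : Prop := ∀ (F : Filter SS) (J : Set (Set ℕ)) (X : Set ℕ) (u : Ultrafilter SS), Ind F J → X ∈ J →
  ∃ F' ≤ F, Ind F' (J \ {X}) ∧ ∃ B ∈ F', B ∉ u

/-- **STP** (0.6 h, from IND, DCW, OKS, NRK).  The step.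
Proof.  DCW gives `F1`, `R1`.  `J \ R1` is not countable; choose different `X1, X2 ∈ J \ R1`.  NRK with `X1`: `F2 ≤ F1`, `B`.  If some `(U n)ᶜ ∈ F1`: done with `F2`.  Otherwise `U n ∈ F1` for all `n`, OKS with `X2` and `F2`.  `R = R1 ∪ {X1, X2}` (IND (1)). -/
def St_STP : Prop := ∀ (U : ℕ → Set SS) (u : Ultrafilter SS) (F : Filter SS) (J : Set (Set ℕ)), Ind F J → ¬ J.Countable →
  ∃ F' ≤ F, ∃ R : Set (Set ℕ), R.Countable ∧ Ind F' (J \ R) ∧ Done U u F'

/-- **UFL** (0.8 h, from MAT, TRN, IND, STP).  The filter.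
Proof.  TRN with `S = SS`, `ρ = Set ℕ`, `τ = (ℕ → Set SS) × (ℕ → SS)`, `P = Ind`, `Dn (U, g) F = Done U (q.map g) F` (monotone in `F`), `F0 = cofinite`, `J0 = univ`.  `#τ ≤ #(Set ℕ)`: `SS` is countable (MAT (4)), `#(Set SS) ≤ 2 ^ ℵ₀`, `(2 ^ ℵ₀) ^ ℵ₀ = 2 ^ ℵ₀`.  `Ind F ∅` (`D = ∅`) says that all `A ∈ F` are nonempty. -/
def St_UFL : Prop := ∀ q : Ultrafilter ℕ, ∃ F : Filter SS, F.NeBot ∧ F ≤ cofinite ∧ ∀ (U : ℕ → Set SS) (g : ℕ → SS), Done U (q.map g) F

/-- **WPP** (1 h, from MAT, UFL).  A weak P-point `p` which is not below a given ultrafilter `q`.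
Proof.  `F` as in UFL, `p0 = Ultrafilter.of F` (an ultrafilter on `SS`, nonprincipal).  `q.map g ≠ p0` for `g : ℕ → SS`, because some `B ∈ F` is not in `q.map g`.  Let `r n ≠ p0` be nonprincipal ultrafilters on `SS`; choose `U n ∈ p0`, `U n ∉ r n`.  No `(U n)ᶜ` is in `F`, so `Done` gives `V` with `V Y ∈ F` for all `Y`, `Lnk U V`.
For each `n` the set `{Y | V Y ∈ r n}` is finite, with at most `n` elements: otherwise it contains a `T` with `|T| = n + 1`, `W = ⋂ Y ∈ T, V Y ∈ r n`, and all but finitely many elements of `W` are in `U n`; `r n` is nonprincipal, so `U n ∈ r n`.  So `{Y | ∃ n, V Y ∈ r n}` is countable, and there is `Y : Set ℕ` not in it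
(`Set ℕ` is uncountable): `V Y ∈ p0`, `V Y ∉ r n` for all `n`.  Transport `p0` to `ℕ` by a bijection `SS ≃ ℕ` (MAT (4)): `p = p0.map b`; ultrafilters `r n` on `ℕ` correspond to `(r n).map b.symm`, `q.map g = p` would give `q.map (b.symm ∘ g) = p0`. -/
def St_WPP : Prop := ∀ q : Ultrafilter ℕ, ∃ p : Ultrafilter ℕ, WP p ∧ NR p q

/-- **FAM** (1 h, from WPP).  Many of them.
Proof.  `q = hyperfilter ℕ`, `p0` as in WPP.  Let `φ ξ n` be a code (injective `ℕ × Finset ℕ → ℕ`, `Encodable.encode`) of the pair `(n, {i < n | i ∈ ξ})`.  `φ ξ` is injective, and for `ξ ≠ η` the set `range (φ ξ) ∩ range (φ η)` is finite (`φ ξ n = φ η m` implies `n = m` and that `ξ`, `η` have the same elements below `n`).  `p ξ = p0.map (φ ξ)`.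
`p ξ` is nonprincipal, `range (φ ξ) ∈ p ξ`, so `p ξ ≠ p η` (a finite set is not in `p ξ`).  `NR`: let `ψ` be a left inverse of `φ ξ` (`Function.invFun`); `q.map g = p ξ` gives `q.map (ψ ∘ g) = p0`.  `WP`: let `r n ≠ p ξ` be nonprincipal.  If `range (φ ξ) ∈ r n`, then `r n = (r' n).map (φ ξ)` with `r' n = (r n).map ψ`
(`φ ξ ∘ ψ = id` on `range (φ ξ)`), `r' n` is nonprincipal and `≠ p0`; for the other `n` let `r' n` be ... any nonprincipal ultrafilter `≠ p0` (if there is an `n` of the first kind take its `r' n`; if there is none, `V = range (φ ξ)` does it).  `V' ∈ p0`, `V' ∉ r' n`: `V = φ ξ '' V'` is in `p ξ` and not in `r n`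
(in the first case `(φ ξ) ⁻¹' V = V'`; in the second `V ⊆ range (φ ξ) ∉ r n`). -/
def St_FAM : Prop := ∃ (q : Ultrafilter ℕ) (p : Set ℕ → Ultrafilter ℕ), (q : Filter ℕ) ≤ cofinite ∧ Function.Injective p ∧
  ∀ ξ, WP (p ξ) ∧ NR (p ξ) q

/-! ## Part 3: the theorem -/

/-- **MAI** (1.3 h, from SDL, KUN, THN, TYP, CVG, ZSQ, FAM).  The main theorem.
Proof.  Let `range (f i0)` be infinite.  There is `d0 : ℕ → X` with `f i0 ∘ d0` injective (`Set.Infinite.natEmbedding`), so `Typ f {i0}`.  TYP: `A ∋ i0` maximal, with a sequence `d1`; THN for `a i = f i ∘ d1`: `φ` with `SD (f i ∘ d)` for `i ∈ A`, `d = d1 ∘ φ`.  FAM: `q`, `p ξ`.  Let `y = lim d` along `q`, `x ξ = lim d` along `p ξ`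
(`X` is compact), `h ξ : X → X` continuous, injective with `h ξ y = x ξ`, `e ξ = h ξ ∘ d`, so `e ξ → x ξ` along `q`.  KUN in `K i`, `i ∈ A`, for `f i ∘ d → f i (x ξ)` along `p ξ` and `f i ∘ e ξ → f i (x ξ)` along `q`: `f i (e ξ n) = f i (x ξ)` for `q`-most `n`.
Claim: for each `ξ` there is `j` such that `f j (e ξ n) = f j (x ξ)` is not true for `q`-most `n` (so `j ∉ A`).  Otherwise CVG gives `φ'` with `e ξ ∘ φ' = h ξ ∘ d ∘ φ' → x'`; `h ξ` is a closed embedding (`X` compact, Hausdorff: `Continuous.isClosedEmbedding`), so `x' = h ξ x''` and `d ∘ φ' → x''`, hence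
`f i0 ∘ d ∘ φ'` converges, against SDL (2).  Let `j ξ` be such a `j`.  `Set ℕ` is uncountable and `ℕ` is countable, so for some `j` infinitely many `ξ` have `j ξ = j`; let `ξ_0, ξ_1, ...` be different ones.  ZSQ with `x k = x (ξ_k)`, `e k = e (ξ_k)`: `f i (x k) ≠ f i (x l)` for `k ≠ l`, `i ∈ A` by SDL (1)
(`p (ξ_k) ≠ p (ξ_l)`); `f j (e k n) = v` for `q`-most `n` would give `v = f j (x k)` (`T2`), against the choice of `j`.  So `Typ f (insert j A)` and `j ∈ A`: contradiction. -/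
def St_MAI : Prop := ∀ (X M : Type) (K : ℕ → Type) [TopologicalSpace X] [T2Space X] [CompactSpace X] [TopologicalSpace M] [T2Space M] [SeqCompactSpace M]
  [∀ i, TopologicalSpace (K i)] [∀ i, T2Space (K i)] [∀ i, CompactSpace (K i)] (g : X → M) (f : ∀ i, X → K i), (∀ i, SepC (K i)) →
  Continuous g → (∀ i, Continuous (f i)) → (∀ x y, g x = g y → (∀ i, f i x = f i y) → x = y) →
  (∀ x y : X, ∃ h : X → X, Continuous h ∧ Function.Injective h ∧ h x = y) → ∀ i, (range (f i)).Finite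

/-- **SQC** (0.7 h, from CVG).  Consequences.
Proof.  Let `e : ℕ → X`, `q = hyperfilter ℕ`, `x = lim e` along `q` (`X` compact).  `f j (e n) → f j x` along `q` and `range (f j)` is finite, so `f j (e n) = f j x` for `q`-most `n` (the finite set `range (f j) \ {f j x}` is closed).  CVG: a subsequence converges.  So `X` is sequentially compact
(`SeqCompactSpace`, `isSeqCompact_univ`).  If `X` is infinite take `e` injective: `s = e ∘ φ`.  (3) `F x = (g x, fun i => ⟨f i x, _⟩)` is a continuous injective map of the compact space `X` into the metrizable space `M × ∀ i, range (f i)` (finite Hausdorff spaces are discrete, so metrizable;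
countable products of metrizable spaces are metrizable), so an embedding: `Topology.IsEmbedding.metrizableSpace`. -/
def St_SQC : Prop := ∀ (X M : Type) (K : ℕ → Type) [TopologicalSpace X] [T2Space X] [CompactSpace X] [TopologicalSpace M] [T2Space M] [SeqCompactSpace M]
  [∀ i, TopologicalSpace (K i)] [∀ i, T2Space (K i)] (g : X → M) (f : ∀ i, X → K i), Continuous g → (∀ i, Continuous (f i)) →
  (∀ x y, g x = g y → (∀ i, f i x = f i y) → x = y) → (∀ i, (range (f i)).Finite) →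
  SeqCompactSpace X ∧ (Infinite X → ∃ s : ℕ → X, Function.Injective s ∧ ∃ a, Tendsto s atTop (𝓝 a)) ∧
    (TopologicalSpace.MetrizableSpace M → TopologicalSpace.MetrizableSpace X)

end Pool.Agent.HFP
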